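import Mathlib

/-!
# Distortion method for covering systems: averages, functionals and a comonotone bound

Points of the sample space are functions `ℕ → ℕ`; only prime coordinates `p` matter, and the
coordinate `p` ranges over `range (p ^ e)`.
-/

set_option autoImplicit false

namespace Pool.Agent.Helper53.Cover

open Finset Function

/-- The sample space. -/
abbrev Om := ℕ → ℕ

/-- Average over the coordinate `n`, which ranges over `range (n ^ e)`. -/
def avg (e n : ℕ) (F : Om → ℚ) (x : Om) : ℚ :=
  (∑ t ∈ range (n ^ e), F (update x n t)) / ((n ^ e : ℕ) : ℚ)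

/-- `F` only depends on the coordinates `< n`. -/
def Dep {α : Type*} (n : ℕ) (F : Om → α) : Prop := ∀ x y : Om, (∀ i < n, x i = y i) → F x = F y

lemma Dep.mono {α : Type*} {n m : ℕ} {F : Om → α} (h : Dep n F) (hnm : n ≤ m) : Dep m F :=
  fun x y hxy => h x y fun i hi => hxy i (lt_of_lt_of_le hi hnm)

lemma Dep.update {α : Type*} {n : ℕ} {F : Om → α} (h : Dep n F) (x : Om) {k : ℕ} (hk : n ≤ k)
    (t : ℕ) : F (Function.update x k t) = F x := by
  apply h
  intro i hi
  rw [update_of_ne]
  omega

lemma avg_mono {e n : ℕ} {F G : Om → ℚ} (h : ∀ x, F x ≤ G x) (x : Om) :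
    avg e n F x ≤ avg e n G x := by
  unfold avg
  exact div_le_div_of_nonneg_right (sum_le_sum fun t _ => h _) (by positivity)

lemma avg_nonneg {e n : ℕ} {F : Om → ℚ} (h : ∀ x, 0 ≤ F x) (x : Om) : 0 ≤ avg e n F x := by
  unfold avg
  exact div_nonneg (sum_nonneg fun t _ => h _) (by positivity)

lemma avg_sum {e n : ℕ} {ι : Type*} (s : Finset ι) (F : ι → Om → ℚ) (x : Om) :
    avg e n (fun y => ∑ i ∈ s, F i y) x = ∑ i ∈ s, avg e n (F i) x := by
  unfold avg
  rw [sum_comm, sum_div]

lemma avg_smul {e n : ℕ} (c : ℚ) (F : Om → ℚ) (x : Om) :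
    avg e n (fun y => c * F y) x = c * avg e n F x := by
  unfold avg
  rw [← mul_sum, mul_div_assoc]

lemma avg_const {e n : ℕ} (hn : n ≠ 0) (c : ℚ) (x : Om) : avg e n (fun _ => c) x = c := by
  unfold avg
  have : ((n ^ e : ℕ) : ℚ) ≠ 0 := by positivity
  rw [sum_const, card_range, nsmul_eq_mul]
  field_simp

lemma avg_congr_upd {e n : ℕ} {F G : Om → ℚ} (x : Om) (h : ∀ t, F (update x n t) = G (update x n t)) :
    avg e n F x = avg e n G x := by
  unfold avg
  rw [sum_congr rfl fun t _ => h t]

/-- A factor which does not depend on coordinate `n` can be pulled out. -/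
lemma avg_mul_dep {e n : ℕ} {F G : Om → ℚ} (hG : Dep n G) (x : Om) :
    avg e n (fun y => F y * G y) x = avg e n F x * G x := by
  unfold avg
  rw [div_mul_eq_mul_div, sum_mul]
  congr 1
  refine sum_congr rfl fun t _ => ?_
  show F (Function.update x n t) * G (Function.update x n t) = F (Function.update x n t) * G x
  rw [hG.update x le_rfl t]

lemma avg_update {e n : ℕ} {F : Om → ℚ} (x : Om) (t : ℕ) :
    avg e n F (update x n t) = avg e n F x := by
  unfold avg
  simp

lemma avg_dep {e n : ℕ} {F : Om → ℚ} (hF : Dep (n + 1) F) : Dep n (avg e n F) := by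
  intro x y hxy
  unfold avg
  congr 1
  refine sum_congr rfl fun t _ => hF _ _ ?_
  intro i hi
  by_cases h : i = n
  · subst h; simp
  · rw [update_of_ne h, update_of_ne h]
    exact hxy i (by omega)

/-- The expectation functionals. `D n` is the density used at the (prime) coordinate `n`. -/
def P (e : ℕ) (D : ℕ → Om → ℚ) : ℕ → (Om → ℚ) → ℚ
  | 0, F => F (fun _ => 0)
  | (n + 1), F => if n.Prime then P e D n (avg e n (fun x => D n x * F x)) else P e D n F

section PLemmas

variable {e : ℕ} {D : ℕ → Om → ℚ}

lemma P_succ_prime {n : ℕ} (hn : n.Prime) (F : Om → ℚ) :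
    P e D (n + 1) F = P e D n (avg e n (fun x => D n x * F x)) := by
  simp [P, hn]

lemma P_succ_not {n : ℕ} (hn : ¬ n.Prime) (F : Om → ℚ) :
    P e D (n + 1) F = P e D n F := by
  simp [P, hn]

lemma P_mono (hD : ∀ n x, 0 ≤ D n x) : ∀ (n : ℕ) {F G : Om → ℚ}, (∀ x, F x ≤ G x) →
    P e D n F ≤ P e D n G := by
  intro n
  induction n with
  | zero => intro F G h; exact h _
  | succ n ih =>
    intro F G h
    by_cases hn : n.Prime
    · rw [P_succ_prime hn, P_succ_prime hn]
      apply ih
      intro x
      apply avg_mono
      intro y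
      exact mul_le_mul_of_nonneg_left (h y) (hD n y)
    · rw [P_succ_not hn, P_succ_not hn]
      exact ih h

lemma P_sum {ι : Type*} (s : Finset ι) : ∀ (n : ℕ) (F : ι → Om → ℚ),
    P e D n (fun x => ∑ i ∈ s, F i x) = ∑ i ∈ s, P e D n (F i) := by
  intro n
  induction n with
  | zero => intro F; rfl
  | succ n ih =>
    intro F
    by_cases hn : n.Prime
    · simp only [P_succ_prime hn]
      rw [← ih]
      congr 1
      funext x
      rw [← avg_sum]
      congr 1
      funext y
      rw [mul_sum]
    · simp only [P_succ_not hn]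
      exact ih F

lemma P_smul (c : ℚ) : ∀ (n : ℕ) (F : Om → ℚ), P e D n (fun x => c * F x) = c * P e D n F := by
  intro n
  induction n with
  | zero => intro F; rfl
  | succ n ih =>
    intro F
    by_cases hn : n.Prime
    · simp only [P_succ_prime hn]
      rw [← ih]
      congr 1
      funext x
      rw [← avg_smul]
      congr 1
      funext y
      ring
    · simp only [P_succ_not hn]
      exact ih F

/-- A function depending on coordinates `< n` only has the same expectation at every level
`≥ n`. -/
lemma P_dep (havg : ∀ n x, n.Prime → avg e n (D n) x = 1) {n : ℕ} {F : Om → ℚ} (hF : Dep n F) :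
    ∀ N, n ≤ N → P e D N F = P e D n F := by
  intro N hN
  induction N, hN using Nat.le_induction with
  | base => rfl
  | succ N hN ih =>
    by_cases hp : N.Prime
    · rw [P_succ_prime hp, ← ih]
      congr 1
      funext x
      rw [avg_mul_dep (hF.mono hN), havg N x hp, one_mul]
    · rw [P_succ_not hp, ih]

lemma P_const (havg : ∀ n x, n.Prime → avg e n (D n) x = 1) (n : ℕ) (c : ℚ) :
    P e D n (fun _ => c) = c := by
  have h : Dep 0 (fun _ : Om => c) := fun _ _ _ => rfl
  rw [P_dep havg h n (Nat.zero_le n)]
  rfl

end PLemmas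

/-! ### The comonotone (one-coordinate) lemma -/

section Comonotone

variable {ι : Type*} [DecidableEq ι]

/-- Level weights. -/
lemma exists_lambda (s : Finset ι) (j : ι → ℕ) (b : ℚ) (hb : 0 ≤ b) :
    ∃ lam : ι → ℚ, (∀ i ∈ s, 0 ≤ lam i) ∧ (∑ i ∈ s, (1 - lam i) ≤ b) ∧ (∀ i ∈ s, lam i ≤ 1) ∧
      ∀ v, ∑ i ∈ s.filter (fun i => j i ≤ v), lam i
        = max (((s.filter (fun i => j i ≤ v)).card : ℚ) - b) 0 := by
  classical
  set h : ℕ → ℚ := fun v => max (((s.filter (fun i => j i < v)).card : ℚ) - b) 0 with hh
  have hcard : ∀ v, (s.filter (fun i => j i < v + 1)).card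
      = (s.filter (fun i => j i < v)).card + (s.filter (fun i => j i = v)).card := by
    intro v
    rw [← card_union_of_disjoint]
    · congr 1
      ext i
      simp only [mem_filter, mem_union]
      constructor
      · rintro ⟨h1, h2⟩
        rcases Nat.lt_succ_iff_lt_or_eq.1 h2 with h3 | h3
        · exact Or.inl ⟨h1, h3⟩
        · exact Or.inr ⟨h1, h3⟩
      · rintro (⟨h1, h2⟩ | ⟨h1, h2⟩)
        · exact ⟨h1, by omega⟩
        · exact ⟨h1, by omega⟩
    · rw [disjoint_filter]
      intro i _ h1 h2
      omega
  have hstep : ∀ v, 0 ≤ h (v + 1) - h v ∧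
      h (v + 1) - h v ≤ ((s.filter (fun i => j i = v)).card : ℚ) := by
    intro v
    have hc := hcard v
    have hc' : ((s.filter (fun i => j i < v + 1)).card : ℚ)
      = (s.filter (fun i => j i < v)).card + (s.filter (fun i => j i = v)).card := by
      exact_mod_cast hc
    have hnn : (0 : ℚ) ≤ ((s.filter (fun i => j i = v)).card : ℚ) := by positivity
    simp only [hh]
    rw [hc']
    constructor
    · have : max (((s.filter (fun i => j i < v)).card : ℚ) - b) 0
        ≤ max ((((s.filter (fun i => j i < v)).card : ℚ)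
          + ((s.filter (fun i => j i = v)).card : ℚ)) - b) 0 :=
        max_le_max (by linarith) le_rfl
      linarith
    · have : max ((((s.filter (fun i => j i < v)).card : ℚ)
          + ((s.filter (fun i => j i = v)).card : ℚ)) - b) 0
          ≤ max (((s.filter (fun i => j i < v)).card : ℚ) - b) 0
            + ((s.filter (fun i => j i = v)).card : ℚ) := by
        apply max_le
        · have := le_max_left (((s.filter (fun i => j i < v)).card : ℚ) - b) 0
          linarith
        · have := le_max_right (((s.filter (fun i => j i < v)).card : ℚ) - b) 0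
          linarith
      linarith
  set lam : ι → ℚ := fun i => (h (j i + 1) - h (j i)) / ((s.filter (fun k => j k = j i)).card : ℚ)
    with hlam
  have hpos : ∀ i ∈ s, (0 : ℚ) < ((s.filter (fun k => j k = j i)).card : ℚ) := by
    intro i hi
    have : 0 < (s.filter (fun k => j k = j i)).card := card_pos.2 ⟨i, by simp [hi]⟩
    exact_mod_cast this
  have h0 : ∀ i ∈ s, 0 ≤ lam i := fun i hi => div_nonneg (hstep _).1 (hpos i hi).le
  have h1 : ∀ i ∈ s, lam i ≤ 1 := fun i hi => (div_le_one (hpos i hi)).2 (hstep _).2
  have hsum : ∀ v, ∑ i ∈ s.filter (fun i => j i < v), lam i = h v := by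
    intro v
    induction v with
    | zero =>
      simp only [hh, Nat.not_lt_zero, filter_false, sum_empty, card_empty, Nat.cast_zero]
      rw [max_eq_right]
      linarith
    | succ v ih =>
      have hun : s.filter (fun i => j i < v + 1)
          = s.filter (fun i => j i < v) ∪ s.filter (fun i => j i = v) := by
        ext i
        simp only [mem_filter, mem_union]
        constructor
        · rintro ⟨h1, h2⟩
          rcases Nat.lt_succ_iff_lt_or_eq.1 h2 with h3 | h3
          · exact Or.inl ⟨h1, h3⟩
          · exact Or.inr ⟨h1, h3⟩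
        · rintro (⟨h1, h2⟩ | ⟨h1, h2⟩)
          · exact ⟨h1, by omega⟩
          · exact ⟨h1, by omega⟩
      have hdis : Disjoint (s.filter (fun i => j i < v)) (s.filter (fun i => j i = v)) := by
        rw [disjoint_filter]
        intro i _ h1 h2
        omega
      rw [hun, sum_union hdis, ih]
      have : ∑ i ∈ s.filter (fun i => j i = v), lam i = h (v + 1) - h v := by
        rcases (s.filter (fun i => j i = v)).eq_empty_or_nonempty with hem | hne
        · rw [hem, sum_empty]
          have := hstep v
          rw [hem, card_empty, Nat.cast_zero] at this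
          linarith [this.1, this.2]
        · have hc : ∀ i ∈ s.filter (fun i => j i = v),
              lam i = (h (v + 1) - h v) / ((s.filter (fun k => j k = v)).card : ℚ) := by
            intro i hi
            rw [mem_filter] at hi
            simp only [hlam, hi.2]
          rw [sum_congr rfl hc, sum_const, nsmul_eq_mul]
          have : ((s.filter (fun k => j k = v)).card : ℚ) ≠ 0 := by
            have := card_pos.2 hne
            positivity
          field_simp
      rw [this]
      ring
  refine ⟨lam, h0, ?_, h1, ?_⟩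
  · obtain ⟨V, hV⟩ : ∃ V, ∀ i ∈ s, j i < V := by
      refine ⟨s.sup j + 1, fun i hi => ?_⟩
      have := le_sup (f := j) hi
      omega
    have hs : s.filter (fun i => j i < V) = s := filter_true_of_mem hV
    have := hsum V
    simp only [hh, hs] at this
    rw [sum_sub_distrib, this, sum_const, nsmul_eq_mul, mul_one]
    have := le_max_left ((s.card : ℚ) - b) 0
    linarith
  · intro v
    have h2 : s.filter (fun i => j i ≤ v) = s.filter (fun i => j i < v + 1) := by
      ext i
      simp only [mem_filter, Nat.lt_succ_iff]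
    rw [h2, hsum (v + 1)]

/-- The probabilities of the model valuation, cut off at `e`. -/
def piw (e : ℕ) (mu : ℕ → ℚ) (v : ℕ) : ℚ := if v < e then mu v - mu (v + 1) else mu e

lemma sum_piw_ge (e : ℕ) (mu : ℕ → ℚ) (j : ℕ) (hj : j ≤ e) :
    ∑ v ∈ (range (e + 1)).filter (fun v => j ≤ v), piw e mu v = mu j := by
  have h1 : (range (e + 1)).filter (fun v => j ≤ v) = Ico j (e + 1) := by
    ext v; simp only [mem_filter, mem_range, mem_Ico]; omega
  rw [h1, sum_Ico_succ_top hj]
  have h2 : ∀ v ∈ Ico j e, piw e mu v = mu v - mu (v + 1) := by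
    intro v hv
    rw [mem_Ico] at hv
    simp [piw, hv.2]
  rw [sum_congr rfl h2]
  have h3 : ∑ v ∈ Ico j e, (mu v - mu (v + 1)) = mu j - mu e := by
    obtain ⟨d, rfl⟩ := Nat.exists_eq_add_of_le hj
    rw [sum_Ico_eq_sum_range]
    have : j + d - j = d := by omega
    rw [this]
    have := sum_range_sub' (fun i => mu (j + i)) d
    simpa [add_assoc] using this
  rw [h3]
  simp [piw]

/-- The comonotone bound on one coordinate. -/
lemma comonotone {τ : Type*} (s : Finset ι) (j : ι → ℕ) (e : ℕ) (hj : ∀ i ∈ s, j i ≤ e)
    (b : ℚ) (hb : 0 ≤ b) (T : Finset τ) (w : τ → ℚ) (hw : ∀ t ∈ T, 0 ≤ w t)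
    (C : ι → τ → Prop) [∀ i t, Decidable (C i t)] (mu : ℕ → ℚ)
    (hC : ∀ i ∈ s, ∑ t ∈ T.filter (fun t => C i t), w t ≤ mu (j i)) :
    ∑ t ∈ T, w t * max (((s.filter (fun i => C i t)).card : ℚ) - b) 0 ≤
      ∑ v ∈ range (e + 1), piw e mu v * max (((s.filter (fun i => j i ≤ v)).card : ℚ) - b) 0 := by
  classical
  obtain ⟨lam, h0, hsum, h1, hlev⟩ := exists_lambda s j b hb
  calc ∑ t ∈ T, w t * max (((s.filter (fun i => C i t)).card : ℚ) - b) 0
      ≤ ∑ t ∈ T, w t * ∑ i ∈ s.filter (fun i => C i t), lam i := by
        apply sum_le_sum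
        intro t ht
        apply mul_le_mul_of_nonneg_left _ (hw t ht)
        apply max_le
        · have e1 : ((s.filter (fun i => C i t)).card : ℚ)
            = ∑ i ∈ s.filter (fun i => C i t), lam i
              + ∑ i ∈ s.filter (fun i => C i t), (1 - lam i) := by
            rw [← sum_add_distrib]
            simp
          have e2 : ∑ i ∈ s.filter (fun i => C i t), (1 - lam i) ≤ ∑ i ∈ s, (1 - lam i) := by
            apply sum_le_sum_of_subset_of_nonneg (filter_subset _ _)
            intro i hi _
            linarith [h1 i hi]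
          linarith
        · exact sum_nonneg fun i hi => h0 i (mem_filter.1 hi).1
    _ = ∑ i ∈ s, lam i * ∑ t ∈ T.filter (fun t => C i t), w t := by
        have l1 : ∀ t ∈ T, w t * ∑ i ∈ s.filter (fun i => C i t), lam i
            = ∑ i ∈ s, if C i t then lam i * w t else 0 := by
          intro t _
          rw [sum_filter, mul_sum]
          refine sum_congr rfl fun i _ => ?_
          split_ifs
          · ring
          · ring
        rw [sum_congr rfl l1, sum_comm]
        refine sum_congr rfl fun i _ => ?_
        rw [sum_filter, mul_sum]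
        refine sum_congr rfl fun t _ => ?_
        split_ifs
        · ring
        · ring
    _ ≤ ∑ i ∈ s, lam i * mu (j i) := by
        apply sum_le_sum
        intro i hi
        exact mul_le_mul_of_nonneg_left (hC i hi) (h0 i hi)
    _ = ∑ i ∈ s, ∑ v ∈ range (e + 1), if j i ≤ v then lam i * piw e mu v else 0 := by
        refine sum_congr rfl fun i hi => ?_
        rw [← sum_piw_ge e mu (j i) (hj i hi), mul_sum, sum_filter]
    _ = ∑ v ∈ range (e + 1), piw e mu v * ∑ i ∈ s.filter (fun i => j i ≤ v), lam i := by
        rw [sum_comm]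
        refine sum_congr rfl fun v _ => ?_
        rw [sum_filter, mul_sum]
        refine sum_congr rfl fun i _ => ?_
        split_ifs
        · ring
        · ring
    _ = _ := by
        refine sum_congr rfl fun v _ => ?_
        rw [hlev v]

end Comonotone

end Pool.Agent.Helper53.Cover
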