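import Mathlib
import Pool.Agent.Helper53.Cover.Basic

/-!
# The distorted measures
-/

set_option autoImplicit false

namespace Pool.Agent.Helper53.Cover

open Finset Function

open Classical in
/-- Indicator of a proposition, as a rational number. -/
noncomputable def ind (p : Prop) : ℚ := if p then 1 else 0

lemma ind_nonneg (p : Prop) : 0 ≤ ind p := by unfold ind; split_ifs <;> norm_num

lemma ind_le_one (p : Prop) : ind p ≤ 1 := by unfold ind; split_ifs <;> norm_num

lemma ind_true {p : Prop} (h : p) : ind p = 1 := by simp [ind, h]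

lemma ind_false {p : Prop} (h : ¬ p) : ind p = 0 := by simp [ind, h]

lemma ind_sq (p : Prop) : ind p * ind p = ind p := by unfold ind; split_ifs <;> norm_num

lemma ind_mono {p q : Prop} (h : p → q) : ind p ≤ ind q := by
  by_cases hp : p
  · rw [ind_true hp, ind_true (h hp)]
  · rw [ind_false hp]; exact ind_nonneg q

/-- The fibre density of the bad set. -/
noncomputable def alpha (e : ℕ) (B : ℕ → Om → Prop) (n : ℕ) (x : Om) : ℚ :=
  avg e n (fun y => ind (B n y)) x

/-- The distorted density. -/
noncomputable def DD (e : ℕ) (δ : ℕ → ℚ) (B : ℕ → Om → Prop) (n : ℕ) (x : Om) : ℚ :=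
  if alpha e B n x ≤ δ n then (1 - ind (B n x)) / (1 - alpha e B n x)
  else (alpha e B n x - δ n * ind (B n x)) / (alpha e B n x * (1 - δ n))

section

variable {e : ℕ} {δ : ℕ → ℚ} {B : ℕ → Om → Prop}

lemma alpha_nonneg (n : ℕ) (x : Om) : 0 ≤ alpha e B n x := avg_nonneg (fun _ => ind_nonneg _) x

lemma alpha_update (n : ℕ) (x : Om) (t : ℕ) :
    alpha e B n (update x n t) = alpha e B n x := avg_update x t

lemma DD_nonneg (h0 : ∀ n, 0 ≤ δ n) (h1 : ∀ n, δ n < 1) (n : ℕ) (x : Om) :
    0 ≤ DD e δ B n x := by
  unfold DD
  have hi0 := ind_nonneg (B n x)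
  have hi1 := ind_le_one (B n x)
  have a0 := alpha_nonneg (e := e) (B := B) n x
  have d0 := h0 n
  have d1 := h1 n
  split_ifs with h
  · apply div_nonneg <;> linarith
  · push Not at h
    apply div_nonneg
    · nlinarith
    · apply mul_nonneg <;> linarith

lemma DD_le (h0 : ∀ n, 0 ≤ δ n) (h1 : ∀ n, δ n < 1) (n : ℕ) (x : Om) :
    DD e δ B n x ≤ 1 / (1 - δ n) := by
  unfold DD
  have hi0 := ind_nonneg (B n x)
  have hi1 := ind_le_one (B n x)
  have a0 := alpha_nonneg (e := e) (B := B) n x
  have d0 := h0 n
  have d1 := h1 n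
  split_ifs with h
  · rw [div_le_div_iff₀ (by linarith) (by linarith)]
    nlinarith
  · push Not at h
    have ha : 0 < alpha e B n x := by linarith
    rw [div_le_div_iff₀ (mul_pos ha (by linarith)) (by linarith)]
    have : 0 ≤ δ n * ind (B n x) := mul_nonneg d0 hi0
    nlinarith

lemma avg_affine {n : ℕ} (hn : n ≠ 0) (a b : ℚ) (x : Om) :
    avg e n (fun y => a + b * ind (B n y)) x = a + b * alpha e B n x := by
  have h1 : avg e n (fun y => a + b * ind (B n y)) x
      = avg e n (fun _ => a) x + avg e n (fun y => b * ind (B n y)) x := by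
    unfold avg
    rw [← add_div, ← sum_add_distrib]
  rw [h1, avg_const hn, avg_smul]
  rfl

lemma avg_DD (h0 : ∀ n, 0 ≤ δ n) (h1 : ∀ n, δ n < 1) (n : ℕ) (x : Om) (hn : n.Prime) :
    avg e n (DD e δ B n) x = 1 := by
  have a0 := alpha_nonneg (e := e) (B := B) n x
  have d0 := h0 n
  have d1 := h1 n
  by_cases h : alpha e B n x ≤ δ n
  · have hne : 1 - alpha e B n x ≠ 0 := by
      have : 0 < 1 - alpha e B n x := by linarith
      exact this.ne'
    have : avg e n (DD e δ B n) x
        = avg e n (fun y => 1 / (1 - alpha e B n x)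
            + (-(1 / (1 - alpha e B n x))) * ind (B n y)) x := by
      apply avg_congr_upd
      intro t
      simp only [DD, alpha_update, h, if_true]
      ring
    rw [this, avg_affine hn.ne_zero]
    field_simp
    ring
  · push Not at h
    have ha : alpha e B n x ≠ 0 := by
      have : 0 < alpha e B n x := by linarith
      exact this.ne'
    have hd : 1 - δ n ≠ 0 := by
      have : 0 < 1 - δ n := by linarith
      exact this.ne'
    have : avg e n (DD e δ B n) x
        = avg e n (fun y => 1 / (1 - δ n)
            + (-(δ n / (alpha e B n x * (1 - δ n)))) * ind (B n y)) x := by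
      apply avg_congr_upd
      intro t
      simp only [DD, alpha_update, not_le.2 h, if_false]
      field_simp
      ring
    rw [this, avg_affine hn.ne_zero]
    field_simp
    ring

lemma avg_DD_ind (h0 : ∀ n, 0 ≤ δ n) (h1 : ∀ n, δ n < 1) (n : ℕ) (x : Om) (hn : n.Prime) :
    avg e n (fun y => DD e δ B n y * ind (B n y)) x
      = (1 / (1 - δ n)) * max (alpha e B n x - δ n) 0 := by
  have a0 := alpha_nonneg (e := e) (B := B) n x
  have d0 := h0 n
  have d1 := h1 n
  by_cases h : alpha e B n x ≤ δ n
  · have : avg e n (fun y => DD e δ B n y * ind (B n y)) x = avg e n (fun _ => 0) x := by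
      apply avg_congr_upd
      intro t
      simp only [DD, alpha_update, h, if_true]
      rw [div_mul_eq_mul_div, sub_mul, one_mul, ind_sq, sub_self, zero_div]
    rw [this, avg_const hn.ne_zero, max_eq_right (by linarith), mul_zero]
  · push Not at h
    have ha : alpha e B n x ≠ 0 := by
      have : 0 < alpha e B n x := by linarith
      exact this.ne'
    have hd : 1 - δ n ≠ 0 := by
      have : 0 < 1 - δ n := by linarith
      exact this.ne'
    have : avg e n (fun y => DD e δ B n y * ind (B n y)) x
        = avg e n (fun y => 0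
            + ((alpha e B n x - δ n) / (alpha e B n x * (1 - δ n))) * ind (B n y)) x := by
      apply avg_congr_upd
      intro t
      simp only [DD, alpha_update, not_le.2 h, if_false]
      rw [div_mul_eq_mul_div, div_mul_eq_mul_div, sub_mul, mul_assoc, ind_sq]
      ring
    rw [this, avg_affine hn.ne_zero, max_eq_left (by linarith)]
    field_simp
    ring

/-- If the sets `B n`, `n < N` prime, cover the space then the total loss is at least `1`. -/
theorem one_le_loss (h0 : ∀ n, 0 ≤ δ n) (h1 : ∀ n, δ n < 1)
    (hB : ∀ n, Dep (n + 1) (B n)) (N : ℕ)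
    (hcov : ∀ x, ∃ n, n < N ∧ n.Prime ∧ B n x) :
    1 ≤ ∑ n ∈ (range N).filter Nat.Prime,
      (1 / (1 - δ n)) * P e (DD e δ B) n (fun x => max (alpha e B n x - δ n) 0) := by
  have havg := fun n x hn => avg_DD (e := e) (B := B) h0 h1 n x hn
  calc (1 : ℚ) = P e (DD e δ B) N (fun _ => 1) := (P_const havg N 1).symm
    _ ≤ P e (DD e δ B) N (fun x => ∑ n ∈ (range N).filter Nat.Prime, ind (B n x)) := by
        apply P_mono (DD_nonneg h0 h1)
        intro x
        obtain ⟨n, hn, hp, hb⟩ := hcov x
        rw [← ind_true hb]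
        exact single_le_sum (f := fun n => ind (B n x)) (fun _ _ => ind_nonneg _)
          (mem_filter.2 ⟨mem_range.2 hn, hp⟩)
    _ = ∑ n ∈ (range N).filter Nat.Prime, P e (DD e δ B) N (fun x => ind (B n x)) := P_sum _ _ _
    _ = _ := by
        refine sum_congr rfl fun n hn => ?_
        rw [mem_filter, mem_range] at hn
        have hdep : Dep (n + 1) (fun x => ind (B n x)) := by
          intro x y hxy
          show ind (B n x) = ind (B n y)
          rw [hB n x y hxy]
        rw [P_dep havg hdep N (by omega), P_succ_prime hn.2, ← P_smul]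
        congr 1
        funext x
        exact avg_DD_ind h0 h1 n x hn.2

end

end Pool.Agent.Helper53.Cover
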