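import Mathlib
import Pool.Agent.Helper53.Cover.Basic

/-!
# Domination of the counting functions by the model random variable
-/

set_option autoImplicit false

namespace Pool.Agent.Helper53.Cover

open Finset Function

/-- Bound for the density used at the prime `n`. -/
def dbar (n : ℕ) : ℚ := if n = 3 then 3 / 2 else 4 / 3

/-- Bound for the probability that the model valuation at `n` is at least `j`. -/
def mu (n j : ℕ) : ℚ := if j = 0 then 1 else dbar n / (n : ℚ) ^ j

lemma dbar_pos (n : ℕ) : 0 < dbar n := by unfold dbar; split_ifs <;> norm_num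

lemma mu_zero (n : ℕ) : mu n 0 = 1 := by simp [mu]

lemma mu_succ (n j : ℕ) : mu n (j + 1) = dbar n / (n : ℚ) ^ (j + 1) := by simp [mu]

lemma mu_nonneg (n j : ℕ) : 0 ≤ mu n j := by
  have := dbar_pos n
  unfold mu; split_ifs <;> positivity

lemma mu_anti {n : ℕ} (hn : 2 ≤ n) (j : ℕ) : mu n (j + 1) ≤ mu n j := by
  have hd := dbar_pos n
  have hn' : (2 : ℚ) ≤ n := by exact_mod_cast hn
  rcases j with _ | j
  · rw [mu_zero, mu_succ, zero_add, pow_one, div_le_one (by linarith)]
    unfold dbar
    split_ifs with h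
    · rw [h]; norm_num
    · linarith
  · rw [mu_succ, mu_succ]
    apply div_le_div_of_nonneg_left hd.le (by positivity)
    apply pow_le_pow_right₀ (by linarith)
    omega

lemma piw_nonneg {n : ℕ} (hn : 2 ≤ n) (e v : ℕ) : 0 ≤ piw e (mu n) v := by
  unfold piw
  split_ifs
  · linarith [mu_anti hn v]
  · exact mu_nonneg _ _

/-- The model functional at level `k + 7`. -/
def EB (e : ℕ) : ℕ → (ℕ → ℚ) → ℚ
  | 0, φ => ∑ v ∈ range (e + 1), piw e (mu 5) v * ((φ (v + 1) + φ (v + 2)) / 2)
  | (k + 1), φ => if (k + 7).Prime then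
      ∑ v ∈ range (e + 1), piw e (mu (k + 7)) v * EB e k (fun m => φ ((v + 1) * m))
      else EB e k φ

/-- The trace of the residue class `r` mod `m` on the coordinates `< n`. -/
def inBox (m : ℕ) (r : ℤ) (n : ℕ) (x : Om) : Prop :=
  ∀ p, p.Prime → p < n → (x p : ℤ) ≡ r [ZMOD ((p ^ m.factorization p : ℕ) : ℤ)]

lemma inBox_dep (m : ℕ) (r : ℤ) (n : ℕ) : Dep n (inBox m r n) := by
  intro x y hxy
  unfold inBox
  apply propext
  constructor
  · intro h p hp hpn
    rw [← hxy p hpn]; exact h p hp hpn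
  · intro h p hp hpn
    rw [hxy p hpn]; exact h p hp hpn

lemma inBox_succ_not {m : ℕ} {r : ℤ} {n : ℕ} (hn : ¬ n.Prime) (x : Om) :
    inBox m r (n + 1) x ↔ inBox m r n x := by
  unfold inBox
  constructor
  · intro h p hp hpn
    exact h p hp (by omega)
  · intro h p hp hpn
    apply h p hp
    rcases Nat.lt_succ_iff_lt_or_eq.1 hpn with h1 | h1
    · exact h1
    · exact absurd (h1 ▸ hp) hn

lemma inBox_succ {m : ℕ} {r : ℤ} {n : ℕ} (hn : n.Prime) (x : Om) :
    inBox m r (n + 1) x ↔ inBox m r n x ∧ (x n : ℤ) ≡ r [ZMOD ((n ^ m.factorization n : ℕ) : ℤ)] := by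
  unfold inBox
  constructor
  · intro h
    exact ⟨fun p hp hpn => h p hp (by omega), h n hn (by omega)⟩
  · rintro ⟨h1, h2⟩ p hp hpn
    rcases Nat.lt_succ_iff_lt_or_eq.1 hpn with h3 | h3
    · exact h1 p hp h3
    · subst h3; exact h2

open Classical in
/-- The number of classes of the family `s` whose trace on the coordinates `< n` contains `x`. -/
noncomputable def cnt (s : Finset ℕ) (r : ℕ → ℤ) (n : ℕ) (x : Om) : ℕ :=
  (s.filter (fun m => inBox m (r m) n x)).card

lemma cnt_dep (s : Finset ℕ) (r : ℕ → ℤ) (n : ℕ) : Dep n (cnt s r n) := by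
  classical
  intro x y hxy
  unfold cnt
  congr 1
  apply filter_congr
  intro m _
  rw [inBox_dep m (r m) n x y hxy]

lemma cnt_succ_not (s : Finset ℕ) (r : ℕ → ℤ) {n : ℕ} (hn : ¬ n.Prime) (x : Om) :
    cnt s r (n + 1) x = cnt s r n x := by
  classical
  unfold cnt
  congr 1
  apply filter_congr
  intro m _
  exact inBox_succ_not hn x

lemma card_modEq (n e j : ℕ) (hn : n ≠ 0) (hj : j ≤ e) (r : ℤ) :
    ((range (n ^ e)).filter (fun t : ℕ => (t : ℤ) ≡ r [ZMOD ((n ^ j : ℕ) : ℤ)])).card
      = n ^ (e - j) := by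
  have hpos : 0 < n ^ j := Nat.pos_of_ne_zero (pow_ne_zero _ hn)
  -- replace r by a natural number
  obtain ⟨v, hv⟩ : ∃ v : ℕ, r ≡ (v : ℤ) [ZMOD ((n ^ j : ℕ) : ℤ)] := by
    refine ⟨(r % ((n ^ j : ℕ) : ℤ)).toNat, ?_⟩
    rw [Int.toNat_of_nonneg (Int.emod_nonneg _ (by exact_mod_cast hpos.ne'))]
    exact (Int.mod_modEq _ _).symm
  have h1 : (range (n ^ e)).filter (fun t : ℕ => (t : ℤ) ≡ r [ZMOD ((n ^ j : ℕ) : ℤ)])
      = (range (n ^ e)).filter (fun t : ℕ => t ≡ v [MOD n ^ j]) := by
    apply filter_congr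
    intro t _
    rw [← Int.natCast_modEq_iff]
    exact ⟨fun h => h.trans hv, fun h => h.trans hv.symm⟩
  rw [h1, ← Nat.count_eq_card_filter_range, Nat.count_modEq_card _ hpos]
  have h2 : n ^ e = n ^ j * n ^ (e - j) := by
    rw [← pow_add]; congr 1; omega
  rw [h2, Nat.mul_div_cancel_left _ hpos, Nat.mul_mod_right]
  simp

variable {e : ℕ} {D : ℕ → Om → ℚ}

/-- One coordinate. -/
lemma step_bound (hD0 : ∀ n x, 0 ≤ D n x) (hD1 : ∀ n x, n.Prime → avg e n (D n) x = 1)
    (hD2 : ∀ n x, n.Prime → D n x ≤ dbar n) {n : ℕ} (hn : n.Prime) (s : Finset ℕ) (r : ℕ → ℤ)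
    (hs : ∀ m ∈ s, m.factorization n ≤ e) (b : ℚ) (hb : 0 ≤ b) (x : Om) :
    avg e n (fun y => D n y * max ((cnt s r (n + 1) y : ℚ) - b) 0) x ≤
      ∑ v ∈ range (e + 1), piw e (mu n) v *
        max ((cnt (s.filter (fun m => m.factorization n ≤ v)) r n x : ℚ) - b) 0 := by
  classical
  have hqpos : (0 : ℚ) < ((n ^ e : ℕ) : ℚ) := by
    have := hn.pos
    positivity
  set s' := s.filter (fun m => inBox m (r m) n x) with hs'
  have h1 : avg e n (fun y => D n y * max ((cnt s r (n + 1) y : ℚ) - b) 0) x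
      = ∑ t ∈ range (n ^ e), (D n (update x n t) / ((n ^ e : ℕ) : ℚ)) *
        max (((s'.filter (fun m => (t : ℤ) ≡ r m [ZMOD ((n ^ m.factorization n : ℕ) : ℤ)])).card : ℚ)
          - b) 0 := by
    unfold avg
    rw [sum_div]
    refine sum_congr rfl fun t _ => ?_
    have hc : cnt s r (n + 1) (update x n t)
        = (s'.filter (fun m => (t : ℤ) ≡ r m [ZMOD ((n ^ m.factorization n : ℕ) : ℤ)])).card := by
      unfold cnt
      rw [hs', filter_filter]
      congr 1
      apply filter_congr
      intro m _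
      rw [inBox_succ hn, (inBox_dep m (r m) n).update x le_rfl t, update_self]
    show D n (update x n t) * max ((cnt s r (n + 1) (update x n t) : ℚ) - b) 0 / ((n ^ e : ℕ) : ℚ) = _
    rw [hc]
    ring
  rw [h1]
  refine (comonotone s' (fun m => m.factorization n) e
    (fun m hm => hs m (mem_filter.1 hm).1) b hb (range (n ^ e))
    (fun t => D n (update x n t) / ((n ^ e : ℕ) : ℚ))
    (fun t _ => div_nonneg (hD0 _ _) hqpos.le)
    (fun m t => (t : ℤ) ≡ r m [ZMOD ((n ^ m.factorization n : ℕ) : ℤ)]) (mu n) ?_).trans ?_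
  · intro m hm
    have hme := hs m (mem_filter.1 hm).1
    rcases Nat.eq_zero_or_pos (m.factorization n) with h0 | h0
    · have : ∑ t ∈ (range (n ^ e)).filter
          (fun t : ℕ => (t : ℤ) ≡ r m [ZMOD ((n ^ m.factorization n : ℕ) : ℤ)]),
          D n (update x n t) / ((n ^ e : ℕ) : ℚ) = avg e n (D n) x := by
        rw [h0]
        have : (range (n ^ e)).filter (fun t : ℕ => (t : ℤ) ≡ r m [ZMOD ((n ^ 0 : ℕ) : ℤ)])
            = range (n ^ e) := by
          apply filter_true_of_mem
          intro t _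
          simp [Int.modEq_one]
        rw [this]
        unfold avg
        rw [sum_div]
      rw [this, hD1 n x hn, h0, mu_zero]
    · have hle : ∀ t ∈ (range (n ^ e)).filter
          (fun t : ℕ => (t : ℤ) ≡ r m [ZMOD ((n ^ m.factorization n : ℕ) : ℤ)]),
          D n (update x n t) / ((n ^ e : ℕ) : ℚ) ≤ dbar n / ((n ^ e : ℕ) : ℚ) := by
        intro t _
        exact div_le_div_of_nonneg_right (hD2 n _ hn) hqpos.le
      refine (sum_le_sum hle).trans ?_
      rw [sum_const, card_modEq n e _ hn.ne_zero hme, nsmul_eq_mul]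
      obtain ⟨j, hj⟩ : ∃ j, m.factorization n = j + 1 := ⟨m.factorization n - 1, by omega⟩
      rw [hj, mu_succ]
      have hn0 : (n : ℚ) ≠ 0 := by exact_mod_cast hn.ne_zero
      have h2 : ((n ^ e : ℕ) : ℚ) = (n : ℚ) ^ (j + 1) * (n : ℚ) ^ (e - (j + 1)) := by
        rw [← pow_add]
        push_cast
        congr 1
        omega
      rw [h2]
      push_cast
      rw [le_iff_lt_or_eq]
      right
      field_simp
  · apply le_of_eq
    refine sum_congr rfl fun v _ => ?_
    congr 3
    unfold cnt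
    rw [hs', filter_filter, filter_filter]
    norm_cast
    congr 1
    apply filter_congr
    intro m _
    exact and_comm

/-- The moduli allowed in the problem (with exponents bounded by `e`). -/
def good (e m : ℕ) : Prop :=
  m ≠ 0 ∧ ¬ 2 ∣ m ∧ ¬ 9 ∣ m ∧ ¬ 15 ∣ m ∧ ∀ p, m.factorization p ≤ e

lemma good_fac_three {e m : ℕ} (h : good e m) : m.factorization 3 ≤ 1 := by
  obtain ⟨h0, _, h9, _, _⟩ := h
  by_contra hcon
  push Not at hcon
  apply h9
  have : 3 ^ 2 ∣ m := (Nat.prime_three.pow_dvd_iff_le_factorization h0).2 hcon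
  simpa using this

lemma good_fac_two {e m : ℕ} (h : good e m) : m.factorization 2 = 0 :=
  Nat.factorization_eq_zero_of_not_dvd h.2.1

lemma good_fac_five {e m : ℕ} (h : good e m) (h3 : m.factorization 3 ≠ 0) :
    m.factorization 5 = 0 := by
  obtain ⟨h0, _, _, h15, _⟩ := h
  by_contra hcon
  apply h15
  have h1 : 3 ∣ m := Nat.dvd_of_factorization_pos h3
  have h2 : 5 ∣ m := Nat.dvd_of_factorization_pos hcon
  exact Nat.Coprime.mul_dvd_of_dvd_of_dvd (by norm_num) h1 h2

/-- Multiplicity of the traces. -/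
def multLe (s : Finset ℕ) (n c : ℕ) : Prop :=
  ∀ f : ℕ → ℕ, (s.filter (fun m => ∀ p < n, p.Prime → m.factorization p = f p)).card ≤ c

lemma multLe_not {s : Finset ℕ} {n c : ℕ} (hn : ¬ n.Prime) (h : multLe s (n + 1) c) :
    multLe s n c := by
  intro f
  refine le_trans (le_of_eq ?_) (h f)
  congr 1
  apply filter_congr
  intro m _
  constructor
  · intro h1 p hp hpp
    rcases Nat.lt_succ_iff_lt_or_eq.1 hp with h2 | h2
    · exact h1 p h2 hpp
    · exact absurd (h2 ▸ hpp) hn
  · intro h1 p hp hpp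
    exact h1 p (by omega) hpp

lemma multLe_step {s : Finset ℕ} {n c : ℕ} (h : multLe s (n + 1) c) (v : ℕ) :
    multLe (s.filter (fun m => m.factorization n ≤ v)) n (c * (v + 1)) := by
  classical
  intro f
  have hsub : (s.filter (fun m => m.factorization n ≤ v)).filter
      (fun m => ∀ p < n, p.Prime → m.factorization p = f p) ⊆
      (range (v + 1)).biUnion (fun t => s.filter
        (fun m => ∀ p < n + 1, p.Prime → m.factorization p = update f n t p)) := by
    intro m hm
    rw [mem_filter, mem_filter] at hm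
    rw [mem_biUnion]
    refine ⟨m.factorization n, by rw [mem_range]; omega, ?_⟩
    rw [mem_filter]
    refine ⟨hm.1.1, fun p hp hpp => ?_⟩
    by_cases hpn : p = n
    · subst hpn; simp
    · rw [update_of_ne hpn]
      exact hm.2 p (by omega) hpp
  refine (card_le_card hsub).trans (card_biUnion_le.trans ?_)
  refine (sum_le_sum fun t _ => h (update f n t)).trans ?_
  rw [sum_const, card_range, smul_eq_mul, mul_comm]

lemma max_mono {a b c : ℚ} (h : a ≤ b) : max (a - c) 0 ≤ max (b - c) 0 :=
  max_le_max (by linarith) le_rfl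

/-- Base case. -/
lemma dom_base (he : 1 ≤ e) (hD0 : ∀ n x, 0 ≤ D n x)
    (hD1 : ∀ n x, n.Prime → avg e n (D n) x = 1)
    (hD2 : ∀ n x, n.Prime → D n x ≤ dbar n) (r : ℕ → ℤ) (c : ℕ) (b : ℚ) (hb : 0 ≤ b)
    (s : Finset ℕ) (hs : ∀ m ∈ s, good e m) (hm : multLe s 7 c) :
    P e D 7 (fun x => max ((cnt s r 7 x : ℚ) - b) 0)
      ≤ EB e 0 (fun i => max ((c : ℚ) * i - b) 0) := by
  classical
  have h6 : ¬ Nat.Prime 6 := by norm_num
  have h4 : ¬ Nat.Prime 4 := by norm_num
  -- from 7 to 6
  rw [show (7 : ℕ) = 6 + 1 from rfl, P_succ_not h6]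
  simp only [cnt_succ_not s r h6]
  have hm6 : multLe s 6 c := multLe_not h6 hm
  -- coordinate 5
  rw [show (6 : ℕ) = 5 + 1 from rfl, P_succ_prime Nat.prime_five]
  have s5 := fun x => step_bound hD0 hD1 hD2 Nat.prime_five s r
    (fun m hms => (hs m hms).2.2.2.2 5) b hb x
  refine (P_mono hD0 5 s5).trans ?_
  rw [P_sum]
  unfold EB
  apply sum_le_sum
  intro v _
  rw [P_smul]
  apply mul_le_mul_of_nonneg_left _ (piw_nonneg (by norm_num) e v)
  set sv := s.filter (fun m => m.factorization 5 ≤ v) with hsv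
  have hmv : multLe sv 5 (c * (v + 1)) := multLe_step (n := 5) hm6 v
  -- from 5 to 4
  rw [show (5 : ℕ) = 4 + 1 from rfl, P_succ_not h4]
  simp only [cnt_succ_not sv r h4]
  -- coordinate 3
  rw [show (4 : ℕ) = 3 + 1 from rfl, P_succ_prime Nat.prime_three]
  have s3 := fun x => step_bound hD0 hD1 hD2 Nat.prime_three sv r
    (fun m hms => (hs m (mem_filter.1 hms).1).2.2.2.2 3) b hb x
  refine (P_mono hD0 3 s3).trans ?_
  rw [P_sum]
  simp only [P_smul]
  -- sizes of the subfamilies
  have hcard0 : (sv.filter (fun m => m.factorization 3 ≤ 0)).card ≤ c * (v + 1) := by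
    have := multLe_step (n := 3) (multLe_not h4 (n := 4) hmv) 0 (fun _ => 0)
    refine le_trans (card_le_card ?_) (this.trans (by omega))
    intro m hmm
    rw [mem_filter]
    refine ⟨hmm, fun p hp hpp => ?_⟩
    have : p = 2 := by
      interval_cases p
      · exact absurd hpp (by norm_num)
      · exact absurd hpp (by norm_num)
      · rfl
    subst this
    exact good_fac_two (hs m (mem_filter.1 (mem_filter.1 hmm).1).1)
  have hcardall : sv.card ≤ c * (v + 2) := by
    have hsplit : sv ⊆ sv.filter (fun m => m.factorization 3 ≤ 0) ∪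
        s.filter (fun m => ∀ p < 6, p.Prime → m.factorization p = if p = 3 then 1 else 0) := by
      intro m hmm
      have hg := hs m (mem_filter.1 hmm).1
      by_cases h3 : m.factorization 3 = 0
      · exact mem_union.2 (Or.inl (mem_filter.2 ⟨hmm, h3.le⟩))
      · refine mem_union.2 (Or.inr (mem_filter.2 ⟨(mem_filter.1 hmm).1, fun p hp hpp => ?_⟩))
        interval_cases p
        · exact absurd hpp (by norm_num)
        · exact absurd hpp (by norm_num)
        · simpa using good_fac_two hg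
        · have := good_fac_three hg
          simp only [if_true]
          omega
        · exact absurd hpp (by norm_num)
        · simpa using good_fac_five hg h3
    refine (card_le_card hsplit).trans ((card_union_le _ _).trans ?_)
    have := hm6 (fun p => if p = 3 then 1 else 0)
    calc _ ≤ c * (v + 1) + c := add_le_add hcard0 this
      _ = c * (v + 2) := by ring
  -- bound the inner values
  have hval : ∀ w, P e D 3 (fun x => max ((cnt (sv.filter (fun m => m.factorization 3 ≤ w)) r 3 x : ℚ)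
      - b) 0) ≤ max ((((if w = 0 then c * (v + 1) else c * (v + 2) : ℕ)) : ℚ) - b) 0 := by
    intro w
    refine (P_mono hD0 3 (G := fun _ =>
      max ((((if w = 0 then c * (v + 1) else c * (v + 2) : ℕ)) : ℚ) - b) 0) ?_).trans ?_
    · intro x
      apply max_mono
      have h1 : cnt (sv.filter (fun m => m.factorization 3 ≤ w)) r 3 x
          ≤ (sv.filter (fun m => m.factorization 3 ≤ w)).card := card_filter_le _ _
      by_cases hw : w = 0
      · subst hw
        simp only [if_true]
        exact_mod_cast h1.trans hcard0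
      · simp only [hw, if_false]
        exact_mod_cast h1.trans ((card_filter_le _ _).trans hcardall)
    · rw [P_const hD1]
  refine (sum_le_sum fun w _ => mul_le_mul_of_nonneg_left (hval w)
    (piw_nonneg (by norm_num) e w)).trans ?_
  -- evaluate the sum over w
  rw [← add_sum_erase _ _ (mem_range.2 (Nat.succ_pos e))]
  have herase : (range (e + 1)).erase 0 = (range (e + 1)).filter (fun v => 1 ≤ v) := by
    ext w
    simp only [mem_erase, mem_range, mem_filter]
    omega
  rw [herase]
  have hc : ∀ w ∈ (range (e + 1)).filter (fun v => 1 ≤ v),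
      piw e (mu 3) w * max ((((if w = 0 then c * (v + 1) else c * (v + 2) : ℕ)) : ℚ) - b) 0
      = piw e (mu 3) w * max (((c * (v + 2) : ℕ) : ℚ) - b) 0 := by
    intro w hw
    have : w ≠ 0 := by
      have := (mem_filter.1 hw).2
      omega
    simp only [this, if_false]
  rw [sum_congr rfl hc, ← sum_mul, sum_piw_ge e (mu 3) 1 he]
  have hp0 : piw e (mu 3) 0 = 1 - mu 3 1 := by
    unfold piw
    rw [if_pos (by omega), mu_zero]
  have hm1 : mu 3 1 = 1 / 2 := by
    simp only [mu, dbar]
    norm_num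
  rw [hp0, hm1]
  simp only [if_true]
  push_cast
  apply le_of_eq
  ring

/-- **Domination theorem.** -/
theorem dom (he : 1 ≤ e) (hD0 : ∀ n x, 0 ≤ D n x)
    (hD1 : ∀ n x, n.Prime → avg e n (D n) x = 1)
    (hD2 : ∀ n x, n.Prime → D n x ≤ dbar n) (r : ℕ → ℤ) : ∀ (k : ℕ) (c : ℕ) (b : ℚ) (_ : 0 ≤ b)
    (s : Finset ℕ) (_ : ∀ m ∈ s, good e m) (_ : multLe s (k + 7) c),
    P e D (k + 7) (fun x => max ((cnt s r (k + 7) x : ℚ) - b) 0)
      ≤ EB e k (fun i => max ((c : ℚ) * i - b) 0) := by
  intro k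
  induction k with
  | zero =>
    intro c b hb s hs hm
    exact dom_base he hD0 hD1 hD2 r c b hb s hs hm
  | succ k ih =>
    intro c b hb s hs hm
    have hk : k + 1 + 7 = (k + 7) + 1 := by ring
    rw [hk] at hm ⊢
    by_cases hn : (k + 7).Prime
    · rw [P_succ_prime hn]
      have st := fun x => step_bound hD0 hD1 hD2 hn s r (fun m hms => (hs m hms).2.2.2.2 _) b hb x
      refine (P_mono hD0 _ st).trans ?_
      rw [P_sum]
      simp only [EB, hn, if_true]
      apply sum_le_sum
      intro v _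
      rw [P_smul]
      apply mul_le_mul_of_nonneg_left _ (piw_nonneg hn.two_le e v)
      refine (ih (c * (v + 1)) b hb _ (fun m hmm => hs m (mem_filter.1 hmm).1)
        (multLe_step hm v)).trans (le_of_eq ?_)
      congr 1
      funext i
      push_cast
      ring_nf
    · rw [P_succ_not hn]
      simp only [cnt_succ_not s r hn, EB, hn, if_false]
      exact ih c b hb s hs (multLe_not hn hm)

end Pool.Agent.Helper53.Cover
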