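import Mathlib
import Pool.Agent.Helper53.Cover.Basic
import Pool.Agent.Helper53.Cover.Distort
import Pool.Agent.Helper53.Cover.Domin

/-!
# Reduction of the covering problem to a numerical inequality
-/

set_option autoImplicit false

namespace Pool.Agent.Helper53.Cover

open Finset Function

/-- The thresholds. -/
def dl (n : ℕ) : ℚ := if n = 3 then 1 / 3 else 1 / 4

lemma dl_nonneg (n : ℕ) : 0 ≤ dl n := by unfold dl; split_ifs <;> norm_num
lemma dl_lt_one (n : ℕ) : dl n < 1 := by unfold dl; split_ifs <;> norm_num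
lemma one_div_dl (n : ℕ) : 1 / (1 - dl n) = dbar n := by
  unfold dl dbar; split_ifs <;> norm_num

/-- `m` has largest prime factor `n`. -/
def topP (n m : ℕ) : Prop := n ∣ m ∧ ∀ p, p.Prime → p ∣ m → p ≤ n

/-- The part of the space covered by the classes whose modulus has largest prime factor `n`. -/
def BB (S : Finset ℕ) (r : ℕ → ℤ) (n : ℕ) (x : Om) : Prop :=
  ∃ m ∈ S, topP n m ∧ inBox m (r m) (n + 1) x

lemma BB_dep (S : Finset ℕ) (r : ℕ → ℤ) (n : ℕ) : Dep (n + 1) (BB S r n) := by
  intro x y hxy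
  unfold BB
  apply propext
  constructor
  · rintro ⟨m, hm, ht, hb⟩
    exact ⟨m, hm, ht, (inBox_dep m (r m) (n + 1) x y hxy) ▸ hb⟩
  · rintro ⟨m, hm, ht, hb⟩
    exact ⟨m, hm, ht, (inBox_dep m (r m) (n + 1) x y hxy).symm ▸ hb⟩

open Classical in
/-- The moduli with largest prime factor `n` and exponent `j` at `n`. -/
noncomputable def SS (S : Finset ℕ) (n j : ℕ) : Finset ℕ :=
  S.filter (fun m => topP n m ∧ m.factorization n = j)

lemma avg_inBox {e n : ℕ} (hn : n.Prime) (m : ℕ) (r : ℤ) (hm : m.factorization n ≤ e) (x : Om) :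
    avg e n (fun y => ind (inBox m r (n + 1) y)) x
      = (1 / (n : ℚ) ^ m.factorization n) * ind (inBox m r n x) := by
  classical
  have hn0 : (n : ℚ) ≠ 0 := by exact_mod_cast hn.ne_zero
  have h1 : ∀ t, ind (inBox m r (n + 1) (update x n t))
      = (if (t : ℤ) ≡ r [ZMOD ((n ^ m.factorization n : ℕ) : ℤ)] then 1 else 0)
        * ind (inBox m r n x) := by
    intro t
    by_cases h : inBox m r n x
    · by_cases h2 : (t : ℤ) ≡ r [ZMOD ((n ^ m.factorization n : ℕ) : ℤ)]
      · rw [ind_true, ind_true h, if_pos h2, one_mul]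
        rw [inBox_succ hn, (inBox_dep m r n).update x le_rfl t, update_self]
        exact ⟨h, h2⟩
      · rw [ind_false, if_neg h2, zero_mul]
        rw [inBox_succ hn, update_self]
        exact fun hh => h2 hh.2
    · rw [ind_false, ind_false h, mul_zero]
      rw [inBox_succ hn, (inBox_dep m r n).update x le_rfl t]
      exact fun hh => h hh.1
  unfold avg
  rw [sum_congr rfl fun t _ => h1 t, ← sum_mul, ← sum_filter, sum_const,
    card_modEq n e _ hn.ne_zero hm, nsmul_eq_mul, mul_one]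
  have h2 : ((n ^ e : ℕ) : ℚ) = (n : ℚ) ^ (m.factorization n) * (n : ℚ) ^ (e - m.factorization n) := by
    rw [← pow_add]
    push_cast
    congr 1
    omega
  rw [h2]
  push_cast
  field_simp

lemma alpha_le {e n : ℕ} (hn : n.Prime) (S : Finset ℕ) (r : ℕ → ℤ) (hS : ∀ m ∈ S, good e m)
    (x : Om) :
    alpha e (BB S r) n x ≤ ∑ j ∈ Icc 1 e, (1 / (n : ℚ) ^ j) * (cnt (SS S n j) r n x : ℚ) := by
  classical
  have h1 : alpha e (BB S r) n x ≤
      avg e n (fun y => ∑ m ∈ S.filter (fun m => topP n m), ind (inBox m (r m) (n + 1) y)) x := by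
    unfold alpha
    apply avg_mono
    intro y
    by_cases h : BB S r n y
    · obtain ⟨m, hm, ht, hb⟩ := h
      refine (ind_le_one _).trans ?_
      rw [← ind_true hb]
      exact single_le_sum (f := fun m => ind (inBox m (r m) (n + 1) y)) (fun _ _ => ind_nonneg _)
        (mem_filter.2 ⟨hm, ht⟩)
    · rw [ind_false h]
      exact sum_nonneg fun _ _ => ind_nonneg _
  refine h1.trans (le_of_eq ?_)
  rw [avg_sum]
  have h2 : ∀ m ∈ S.filter (fun m => topP n m), avg e n (fun y => ind (inBox m (r m) (n + 1) y)) x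
      = (1 / (n : ℚ) ^ m.factorization n) * ind (inBox m (r m) n x) := by
    intro m hm
    exact avg_inBox hn m (r m) ((hS m (mem_filter.1 hm).1).2.2.2.2 n) x
  rw [sum_congr rfl h2]
  have h3 : ∀ m ∈ S.filter (fun m => topP n m), m.factorization n ∈ Icc 1 e := by
    intro m hm
    have hg := hS m (mem_filter.1 hm).1
    rw [mem_Icc]
    refine ⟨?_, hg.2.2.2.2 n⟩
    exact Nat.one_le_iff_ne_zero.2
      (((hn.dvd_iff_one_le_factorization hg.1).1 (mem_filter.1 hm).2.1).trans_lt'
        Nat.zero_lt_one).ne'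
  rw [← sum_fiberwise_of_maps_to h3]
  refine sum_congr rfl fun j _ => ?_
  rw [filter_filter]
  have h4 : ∀ m ∈ S.filter (fun m => topP n m ∧ m.factorization n = j),
      (1 / (n : ℚ) ^ m.factorization n) * ind (inBox m (r m) n x)
      = (1 / (n : ℚ) ^ j) * ind (inBox m (r m) n x) := by
    intro m hm
    rw [(mem_filter.1 hm).2.2]
  rw [sum_congr rfl h4, ← mul_sum]
  congr 1
  unfold cnt SS ind
  rw [sum_ite, sum_const_zero, add_zero, sum_const, nsmul_eq_mul, mul_one]

lemma geom_le (n e : ℕ) (hn : 2 ≤ n) : ∑ j ∈ Icc 1 e, (1 / (n : ℚ) ^ j) ≤ 1 / ((n : ℚ) - 1) := by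
  have hn' : (2 : ℚ) ≤ n := by exact_mod_cast hn
  have h1 : (n : ℚ) - 1 ≠ 0 := by linarith
  have h2 : (n : ℚ) ≠ 0 := by linarith
  have key : ∑ j ∈ Icc 1 e, (1 / (n : ℚ) ^ j) = 1 / ((n : ℚ) - 1) - 1 / (((n : ℚ) - 1) * n ^ e) := by
    induction e with
    | zero => simp
    | succ e ih =>
      rw [sum_Icc_succ_top (by omega), ih]
      field_simp
      ring
  rw [key]
  have : 0 ≤ 1 / (((n : ℚ) - 1) * n ^ e) := by
    apply div_nonneg zero_le_one
    apply mul_nonneg (by linarith) (by positivity)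
  linarith

lemma mem_SS {S : Finset ℕ} {n j m : ℕ} : m ∈ SS S n j ↔ m ∈ S ∧ topP n m ∧ m.factorization n = j := by
  classical
  simp [SS]

/-- Two members of `SS S n j` with the same exponents below `n` are equal. -/
lemma SS_inj {e : ℕ} {S : Finset ℕ} (hS : ∀ m ∈ S, good e m) {n j m u : ℕ} (hm : m ∈ SS S n j)
    (hu : u ∈ SS S n j) (h : ∀ p < n, p.Prime → m.factorization p = u.factorization p) : m = u := by
  rw [mem_SS] at hm hu
  apply Nat.eq_of_factorization_eq (hS m hm.1).1 (hS u hu.1).1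
  intro p
  by_cases hp : p.Prime
  · rcases lt_trichotomy p n with h1 | h1 | h1
    · exact h p h1 hp
    · subst h1
      rw [hm.2.2, hu.2.2]
    · rw [Nat.factorization_eq_zero_of_not_dvd, Nat.factorization_eq_zero_of_not_dvd]
      · intro hd
        have := hu.2.1.2 p hp hd
        omega
      · intro hd
        have := hm.2.1.2 p hp hd
        omega
  · rw [Nat.factorization_eq_zero_of_not_prime _ hp, Nat.factorization_eq_zero_of_not_prime _ hp]

lemma SS_mult {e : ℕ} {S : Finset ℕ} (hS : ∀ m ∈ S, good e m) (n j : ℕ) : multLe (SS S n j) n 1 := by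
  classical
  intro f
  rw [card_le_one]
  intro a ha b hb
  rw [mem_filter] at ha hb
  exact SS_inj hS ha.1 hb.1 fun p hp hpp => by rw [ha.2 p hp hpp, hb.2 p hp hpp]

/-- For `n = 2, 3, 5` nothing is lost. -/
lemma alpha_small {e : ℕ} {S : Finset ℕ} (r : ℕ → ℤ) (hS : ∀ m ∈ S, good e m) {n : ℕ}
    (hn : n.Prime) (h7 : n < 7) (x : Om) : alpha e (BB S r) n x ≤ dl n := by
  refine (alpha_le hn S r hS x).trans ?_
  have hcnt : ∀ j, cnt (SS S n j) r n x ≤ (SS S n j).card := by
    classical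
    exact fun j => card_filter_le _ _
  have hn5 : n = 2 ∨ n = 3 ∨ n = 5 := by
    interval_cases n <;> first | omega | (exfalso; revert hn; norm_num)
  rcases hn5 with rfl | rfl | rfl
  · -- n = 2
    have : ∀ j, cnt (SS S 2 j) r 2 x = 0 := by
      intro j
      have : SS S 2 j = ∅ := by
        rw [eq_empty_iff_forall_notMem]
        intro m hm
        rw [mem_SS] at hm
        exact (hS m hm.1).2.1 hm.2.1.1
      have h2 := hcnt j
      have h3 := congrArg Finset.card this
      rw [card_empty] at h3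
      omega
    simp only [this]
    simp
    exact dl_nonneg 2
  · -- n = 3
    have h1 : ∀ j, 2 ≤ j → cnt (SS S 3 j) r 3 x = 0 := by
      intro j hj
      have : SS S 3 j = ∅ := by
        rw [eq_empty_iff_forall_notMem]
        intro m hm
        rw [mem_SS] at hm
        have := good_fac_three (hS m hm.1)
        omega
      have h2 := hcnt j
      have h3 := congrArg Finset.card this
      rw [card_empty] at h3
      omega
    have h2 : cnt (SS S 3 1) r 3 x ≤ 1 := by
      refine (hcnt 1).trans ?_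
      rw [card_le_one]
      intro a ha b hb
      apply SS_inj hS ha hb
      intro p hp hpp
      have hp2 : p = 2 := by
        interval_cases p
        · exact absurd hpp (by norm_num)
        · exact absurd hpp (by norm_num)
        · rfl
      subst hp2
      rw [good_fac_two (hS a (mem_SS.1 ha).1), good_fac_two (hS b (mem_SS.1 hb).1)]
    calc ∑ j ∈ Icc 1 e, (1 / ((3 : ℕ) : ℚ) ^ j) * (cnt (SS S 3 j) r 3 x : ℚ)
        ≤ ∑ j ∈ Icc 1 e, if j = 1 then (1 / 3 : ℚ) else 0 := by
          apply sum_le_sum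
          intro j hj
          rw [mem_Icc] at hj
          split_ifs with h
          · subst h
            have : (cnt (SS S 3 1) r 3 x : ℚ) ≤ 1 := by exact_mod_cast h2
            norm_num
            linarith
          · rw [h1 j (by omega)]
            simp
      _ ≤ 1 / 3 := by
          rw [sum_ite_eq']
          split_ifs <;> norm_num
      _ = dl 3 := by simp [dl]
  · -- n = 5
    have h1 : ∀ j ∈ Icc 1 e, cnt (SS S 5 j) r 5 x ≤ 1 := by
      intro j hj
      rw [mem_Icc] at hj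
      refine (hcnt j).trans ?_
      rw [card_le_one]
      intro a ha b hb
      apply SS_inj hS ha hb
      intro p hp hpp
      have hga := hS a (mem_SS.1 ha).1
      have hgb := hS b (mem_SS.1 hb).1
      have h5 : ∀ m, m ∈ SS S 5 j → m.factorization 3 = 0 := by
        intro m hm
        by_contra h3
        have := good_fac_five (hS m (mem_SS.1 hm).1) h3
        have h4 := (mem_SS.1 hm).2.2
        omega
      interval_cases p
      · exact absurd hpp (by norm_num)
      · exact absurd hpp (by norm_num)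
      · rw [good_fac_two hga, good_fac_two hgb]
      · rw [h5 a ha, h5 b hb]
      · exact absurd hpp (by norm_num)
    calc ∑ j ∈ Icc 1 e, (1 / ((5 : ℕ) : ℚ) ^ j) * (cnt (SS S 5 j) r 5 x : ℚ)
        ≤ ∑ j ∈ Icc 1 e, (1 / ((5 : ℕ) : ℚ) ^ j) := by
          apply sum_le_sum
          intro j hj
          have : (cnt (SS S 5 j) r 5 x : ℚ) ≤ 1 := by exact_mod_cast h1 j hj
          have h5 : (0 : ℚ) ≤ 1 / ((5 : ℕ) : ℚ) ^ j := by positivity
          calc _ ≤ (1 / ((5 : ℕ) : ℚ) ^ j) * 1 := mul_le_mul_of_nonneg_left this h5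
            _ = _ := mul_one _
      _ ≤ 1 / (((5 : ℕ) : ℚ) - 1) := geom_le 5 e (by norm_num)
      _ = dl 5 := by norm_num [dl]

lemma EB_nonneg (e : ℕ) : ∀ (k : ℕ) (φ : ℕ → ℚ), (∀ i, 0 ≤ φ i) → 0 ≤ EB e k φ := by
  intro k
  induction k with
  | zero =>
    intro φ h
    apply sum_nonneg
    intro v _
    apply mul_nonneg (piw_nonneg (by norm_num) e v)
    have h1 := h (v + 1)
    have h2 := h (v + 2)
    linarith
  | succ k ih =>
    intro φ h
    unfold EB
    split_ifs with hp
    · apply sum_nonneg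
      intro v _
      exact mul_nonneg (piw_nonneg hp.two_le e v) (ih _ fun i => h _)
    · exact ih φ h

/-- The loss at a prime `n ≥ 7`. -/
lemma loss_le {e : ℕ} (he : 1 ≤ e) {S : Finset ℕ} (r : ℕ → ℤ) (hS : ∀ m ∈ S, good e m) {n : ℕ}
    (hn : n.Prime) (h7 : 7 ≤ n) :
    P e (DD e dl (BB S r)) n (fun x => max (alpha e (BB S r) n x - dl n) 0) ≤
      (1 / ((n : ℚ) - 1)) * EB e (n - 7) (fun i => max ((i : ℚ) - ((n : ℚ) - 1) / 4) 0) := by
  have hD0 := fun n x => DD_nonneg (e := e) (B := BB S r) dl_nonneg dl_lt_one n x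
  have hD1 := fun n x hn => avg_DD (e := e) (B := BB S r) dl_nonneg dl_lt_one n x hn
  have hD2 : ∀ n x, n.Prime → DD e dl (BB S r) n x ≤ dbar n := by
    intro n x _
    rw [← one_div_dl]
    exact DD_le dl_nonneg dl_lt_one n x
  have hn7 : (7 : ℚ) ≤ n := by exact_mod_cast h7
  set b : ℚ := ((n : ℚ) - 1) / 4 with hb
  have hb0 : 0 ≤ b := by rw [hb]; linarith
  have hdl : dl n = 1 / 4 := by
    unfold dl
    rw [if_neg (by omega)]
  have hpt : ∀ x, max (alpha e (BB S r) n x - dl n) 0 ≤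
      ∑ j ∈ Icc 1 e, (1 / (n : ℚ) ^ j) * max ((cnt (SS S n j) r n x : ℚ) - b) 0 := by
    intro x
    apply max_le
    · have h1 := alpha_le hn S r hS x
      have h2 : ∑ j ∈ Icc 1 e, (1 / (n : ℚ) ^ j) * b ≤ dl n := by
        rw [← sum_mul]
        have := mul_le_mul_of_nonneg_right (geom_le n e hn.two_le) hb0
        refine this.trans (le_of_eq ?_)
        rw [hdl, hb]
        have : (n : ℚ) - 1 ≠ 0 := by linarith
        field_simp
      have h3 : ∑ j ∈ Icc 1 e, (1 / (n : ℚ) ^ j) * ((cnt (SS S n j) r n x : ℚ) - b) ≤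
          ∑ j ∈ Icc 1 e, (1 / (n : ℚ) ^ j) * max ((cnt (SS S n j) r n x : ℚ) - b) 0 := by
        apply sum_le_sum
        intro j _
        exact mul_le_mul_of_nonneg_left (le_max_left _ _) (by positivity)
      simp only [mul_sub, sum_sub_distrib] at h3
      linarith
    · apply sum_nonneg
      intro j _
      exact mul_nonneg (by positivity) (le_max_right _ _)
  refine (P_mono hD0 n hpt).trans ?_
  rw [P_sum]
  obtain ⟨k, rfl⟩ := Nat.exists_eq_add_of_le' h7
  have hk : k + 7 - 7 = k := by omega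
  rw [hk]
  have hEB0 : 0 ≤ EB e k (fun i => max ((i : ℚ) - b) 0) := EB_nonneg e k _ fun i => le_max_right _ _
  calc ∑ j ∈ Icc 1 e, P e (DD e dl (BB S r)) (k + 7)
        (fun x => (1 / ((k + 7 : ℕ) : ℚ) ^ j) * max ((cnt (SS S (k + 7) j) r (k + 7) x : ℚ) - b) 0)
      ≤ ∑ j ∈ Icc 1 e, (1 / ((k + 7 : ℕ) : ℚ) ^ j) * EB e k (fun i => max ((i : ℚ) - b) 0) := by
        apply sum_le_sum
        intro j _
        rw [P_smul]
        apply mul_le_mul_of_nonneg_left _ (by positivity)
        have := dom he hD0 hD1 hD2 r k 1 b hb0 (SS S (k + 7) j)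
          (fun m hm => hS m (mem_SS.1 hm).1) (SS_mult hS (k + 7) j)
        simpa using this
    _ ≤ _ := by
        rw [← sum_mul]
        exact mul_le_mul_of_nonneg_right (geom_le (k + 7) e hn.two_le) hEB0

/-- The classes cover the whole space. -/
lemma cover_space {e : ℕ} {S : Finset ℕ} (r : ℕ → ℤ) (hS : ∀ m ∈ S, good e m)
    (h2 : ∀ m ∈ S, 2 ≤ m)
    (hcov : ∀ x : ℤ, ∃ m ∈ S, x ≡ r m [ZMOD (m : ℤ)]) (N : ℕ) (hN : ∀ m ∈ S, m < N) (x : Om) :
    ∃ n, n < N ∧ n.Prime ∧ BB S r n x := by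
  classical
  -- Chinese remainder theorem
  obtain ⟨z, hz⟩ := Nat.chineseRemainderOfFinset x (fun p => p ^ e) ((range N).filter Nat.Prime)
    (fun p hp => pow_ne_zero _ (mem_filter.1 hp).2.ne_zero)
    (by
      intro p hp q hq hpq
      have hp' := (mem_filter.1 (mem_coe.1 hp)).2
      have hq' := (mem_filter.1 (mem_coe.1 hq)).2
      exact Nat.Coprime.pow _ _ ((Nat.coprime_primes hp' hq').2 hpq))
  obtain ⟨m, hm, hzm⟩ := hcov (z : ℤ)
  have hm0 : m ≠ 0 := (hS m hm).1
  have hm1 : m ≠ 1 := by have := h2 m hm; omega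
  -- the largest prime factor
  have hne : m.primeFactors.Nonempty := Nat.nonempty_primeFactors.2 (by have := h2 m hm; omega)
  set n := m.primeFactors.max' hne with hn
  have hnmem : n ∈ m.primeFactors := max'_mem _ _
  have hnp : n.Prime := Nat.prime_of_mem_primeFactors hnmem
  have hnd : n ∣ m := Nat.dvd_of_mem_primeFactors hnmem
  refine ⟨n, lt_of_le_of_lt (Nat.le_of_dvd (Nat.pos_of_ne_zero hm0) hnd) (hN m hm), hnp,
    m, hm, ⟨hnd, fun p hp hpm => ?_⟩, ?_⟩
  · exact le_max' _ _ (Nat.mem_primeFactors.2 ⟨hp, hpm, hm0⟩)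
  · intro p hp hpn
    have hpN : p < N := by
      have h3 : n ≤ m := Nat.le_of_dvd (Nat.pos_of_ne_zero hm0) hnd
      have h4 := hN m hm
      omega
    have h5 : z ≡ x p [MOD p ^ e] := hz p (mem_filter.2 ⟨mem_range.2 hpN, hp⟩)
    have h6 : (z : ℤ) ≡ (x p : ℤ) [ZMOD ((p ^ m.factorization p : ℕ) : ℤ)] := by
      have h7 : p ^ m.factorization p ∣ p ^ e := pow_dvd_pow p ((hS m hm).2.2.2.2 p)
      exact (Int.natCast_modEq_iff).2 (h5.of_dvd h7)
    have h8 : (z : ℤ) ≡ r m [ZMOD ((p ^ m.factorization p : ℕ) : ℤ)] := by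
      apply Int.ModEq.of_dvd _ hzm
      exact_mod_cast Nat.ordProj_dvd m p
    exact h6.symm.trans h8

/-- **Reduction.** A covering of the integers with the stated moduli forces the numerical series to
be at least `1`. -/
theorem reduction {e : ℕ} (he : 1 ≤ e) {S : Finset ℕ} (r : ℕ → ℤ) (hS : ∀ m ∈ S, good e m)
    (h2 : ∀ m ∈ S, 2 ≤ m)
    (hcov : ∀ x : ℤ, ∃ m ∈ S, x ≡ r m [ZMOD (m : ℤ)]) (N : ℕ) (hN : ∀ m ∈ S, m < N) :
    1 ≤ ∑ n ∈ (range N).filter (fun n => n.Prime ∧ 7 ≤ n),
      (4 / 3 : ℚ) * ((1 / ((n : ℚ) - 1)) *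
        EB e (n - 7) (fun i => max ((i : ℚ) - ((n : ℚ) - 1) / 4) 0)) := by
  have h1 := one_le_loss (e := e) (B := BB S r) dl_nonneg dl_lt_one (BB_dep S r) N
    (cover_space r hS h2 hcov N hN)
  have hD0 := fun n x => DD_nonneg (e := e) (B := BB S r) dl_nonneg dl_lt_one n x
  have hD1 := fun n x hn => avg_DD (e := e) (B := BB S r) dl_nonneg dl_lt_one n x hn
  refine h1.trans ?_
  rw [← sum_filter_add_sum_filter_not ((range N).filter Nat.Prime) (fun n => 7 ≤ n)]
  rw [filter_filter]
  have hz : ∑ n ∈ ((range N).filter Nat.Prime).filter (fun n => ¬ 7 ≤ n), (1 / (1 - dl n)) *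
      P e (DD e dl (BB S r)) n (fun x => max (alpha e (BB S r) n x - dl n) 0) ≤ 0 := by
    apply sum_nonpos
    intro n hn
    rw [mem_filter, mem_filter, not_le] at hn
    have hfun : (fun x => max (alpha e (BB S r) n x - dl n) 0) = fun _ => 0 := by
      funext x
      rw [max_eq_right]
      linarith [alpha_small r hS hn.1.2 hn.2 x]
    rw [hfun, P_const hD1, mul_zero]
  have hmain : ∑ n ∈ (range N).filter (fun n => n.Prime ∧ 7 ≤ n), (1 / (1 - dl n)) *
      P e (DD e dl (BB S r)) n (fun x => max (alpha e (BB S r) n x - dl n) 0) ≤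
      ∑ n ∈ (range N).filter (fun n => n.Prime ∧ 7 ≤ n),
      (4 / 3 : ℚ) * ((1 / ((n : ℚ) - 1)) *
        EB e (n - 7) (fun i => max ((i : ℚ) - ((n : ℚ) - 1) / 4) 0)) := by
    apply sum_le_sum
    intro n hn
    rw [mem_filter] at hn
    have h7 := hn.2.2
    have hdb : 1 / (1 - dl n) = 4 / 3 := by
      rw [one_div_dl]
      unfold dbar
      rw [if_neg (by omega)]
    rw [hdb]
    exact mul_le_mul_of_nonneg_left (loss_le he r hS hn.2.1 h7) (by norm_num)
  linarith

end Pool.Agent.Helper53.Cover
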