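import Mathlib
import Pool.Agent.Helper53.Cover.Reduce

/-!
# Moments and point masses of the model functional
-/

set_option autoImplicit false

namespace Pool.Agent.Helper53.Cover

open Finset Function

/-- Abel summation against the weights `piw`. -/
lemma sum_piw_mul (e : ℕ) (m : ℕ → ℚ) (g : ℕ → ℚ) :
    ∑ v ∈ range (e + 1), piw e m v * g v
      = m 0 * g 0 + ∑ j ∈ range e, m (j + 1) * (g (j + 1) - g j) := by
  have h1 : ∀ v ∈ range (e + 1), piw e m v * g v
      = piw e m v * g 0 + ∑ j ∈ range e, if j + 1 ≤ v then piw e m v * (g (j + 1) - g j) else 0 := by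
    intro v hv
    rw [mem_range] at hv
    have h2 : g v = g 0 + ∑ j ∈ range v, (g (j + 1) - g j) := by
      rw [sum_range_sub]; ring
    have h3 : ∑ j ∈ range e, (if j + 1 ≤ v then piw e m v * (g (j + 1) - g j) else 0)
        = ∑ j ∈ range v, piw e m v * (g (j + 1) - g j) := by
      rw [← sum_filter]
      congr 1
      ext j
      simp only [mem_filter, mem_range]
      omega
    rw [h3, ← mul_sum]
    nth_rewrite 1 [h2]
    ring
  rw [sum_congr rfl h1, sum_add_distrib, ← sum_mul, sum_comm]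
  congr 1
  · have := sum_piw_ge e m 0 (Nat.zero_le e)
    rw [filter_true_of_mem (fun _ _ => Nat.zero_le _)] at this
    rw [this]
  · refine sum_congr rfl fun j hj => ?_
    rw [mem_range] at hj
    rw [← sum_filter, ← sum_mul, sum_piw_ge e m (j + 1) (by omega)]

lemma EB_succ_prime {e k : ℕ} (hk : (k + 7).Prime) (φ : ℕ → ℚ) :
    EB e (k + 1) φ = ∑ v ∈ range (e + 1), piw e (mu (k + 7)) v * EB e k (fun m => φ ((v + 1) * m)) := by
  simp [EB, hk]

lemma EB_succ_not {e k : ℕ} (hk : ¬ (k + 7).Prime) (φ : ℕ → ℚ) :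
    EB e (k + 1) φ = EB e k φ := by
  simp [EB, hk]

/-- The model functional only sees positive integers. -/
lemma EB_mono (e : ℕ) : ∀ (k : ℕ) (φ ψ : ℕ → ℚ), (∀ i, 1 ≤ i → φ i ≤ ψ i) →
    EB e k φ ≤ EB e k ψ := by
  intro k
  induction k with
  | zero =>
    intro φ ψ h
    apply sum_le_sum
    intro v _
    apply mul_le_mul_of_nonneg_left _ (piw_nonneg (by norm_num) e v)
    have h1 := h (v + 1) (by omega)
    have h2 := h (v + 2) (by omega)
    linarith
  | succ k ih =>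
    intro φ ψ h
    by_cases hp : (k + 7).Prime
    · rw [EB_succ_prime hp, EB_succ_prime hp]
      apply sum_le_sum
      intro v _
      apply mul_le_mul_of_nonneg_left _ (piw_nonneg hp.two_le e v)
      apply ih
      intro i hi
      apply h
      exact Nat.one_le_iff_ne_zero.2 (Nat.mul_ne_zero (by omega) (by omega))
    · rw [EB_succ_not hp, EB_succ_not hp]
      exact ih φ ψ h

lemma EB_congr (e k : ℕ) (φ ψ : ℕ → ℚ) (h : ∀ i, 1 ≤ i → φ i = ψ i) : EB e k φ = EB e k ψ :=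
  le_antisymm (EB_mono e k φ ψ fun i hi => (h i hi).le)
    (EB_mono e k ψ φ fun i hi => (h i hi).ge)

lemma EB_add (e : ℕ) : ∀ (k : ℕ) (φ ψ : ℕ → ℚ),
    EB e k (fun i => φ i + ψ i) = EB e k φ + EB e k ψ := by
  intro k
  induction k with
  | zero =>
    intro φ ψ
    unfold EB
    rw [← sum_add_distrib]
    refine sum_congr rfl fun v _ => ?_
    ring
  | succ k ih =>
    intro φ ψ
    by_cases hp : (k + 7).Prime
    · rw [EB_succ_prime hp, EB_succ_prime hp, EB_succ_prime hp, ← sum_add_distrib]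
      refine sum_congr rfl fun v _ => ?_
      rw [ih]
      ring
    · rw [EB_succ_not hp, EB_succ_not hp, EB_succ_not hp]
      exact ih φ ψ

lemma EB_smul (e : ℕ) : ∀ (k : ℕ) (c : ℚ) (φ : ℕ → ℚ),
    EB e k (fun i => c * φ i) = c * EB e k φ := by
  intro k
  induction k with
  | zero =>
    intro c φ
    unfold EB
    rw [mul_sum]
    refine sum_congr rfl fun v _ => ?_
    ring
  | succ k ih =>
    intro c φ
    by_cases hp : (k + 7).Prime
    · rw [EB_succ_prime hp, EB_succ_prime hp, mul_sum]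
      refine sum_congr rfl fun v _ => ?_
      rw [ih]
      ring
    · rw [EB_succ_not hp, EB_succ_not hp]
      exact ih c φ

lemma EB_one (e : ℕ) : ∀ (k : ℕ), EB e k (fun _ => 1) = 1 := by
  intro k
  have hs : ∀ n, ∑ v ∈ range (e + 1), piw e (mu n) v = 1 := by
    intro n
    have := sum_piw_ge e (mu n) 0 (Nat.zero_le e)
    rw [filter_true_of_mem (fun _ _ => Nat.zero_le _), mu_zero] at this
    exact this
  induction k with
  | zero =>
    unfold EB
    norm_num
    exact hs 5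
  | succ k ih =>
    by_cases hp : (k + 7).Prime
    · rw [EB_succ_prime hp, ih]
      simp only [mul_one]
      exact hs _
    · rw [EB_succ_not hp, ih]

lemma EB_sum (e k : ℕ) {ι : Type*} (s : Finset ι) (φ : ι → ℕ → ℚ) :
    EB e k (fun i => ∑ j ∈ s, φ j i) = ∑ j ∈ s, EB e k (φ j) := by
  classical
  induction s using Finset.induction_on with
  | empty =>
    simp only [sum_empty]
    have := EB_smul e k 0 (fun _ => 1)
    simpa using this
  | insert a s ha ih =>
    simp only [sum_insert ha]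
    rw [EB_add, ih]

lemma EB_const (e k : ℕ) (c : ℚ) : EB e k (fun _ => c) = c := by
  have := EB_smul e k c (fun _ => 1)
  rw [EB_one] at this
  simpa using this

/-! ### Moments -/

lemma sum_inv_pow_le (n e : ℕ) (hn : 2 ≤ n) :
    ∑ j ∈ range e, (1 / (n : ℚ) ^ (j + 1)) ≤ 1 / ((n : ℚ) - 1) := by
  have hn' : (2 : ℚ) ≤ n := by exact_mod_cast hn
  have h1 : (n : ℚ) - 1 ≠ 0 := by linarith
  have h2 : (n : ℚ) ≠ 0 := by linarith
  have key : ∑ j ∈ range e, (1 / (n : ℚ) ^ (j + 1))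
      = 1 / ((n : ℚ) - 1) - 1 / (((n : ℚ) - 1) * n ^ e) := by
    induction e with
    | zero => simp
    | succ e ih =>
      rw [sum_range_succ, ih]
      field_simp
      ring
  rw [key]
  have : 0 ≤ 1 / (((n : ℚ) - 1) * n ^ e) := by
    apply div_nonneg zero_le_one
    apply mul_nonneg (by linarith) (by positivity)
  linarith

lemma sum_odd_pow_le (n e : ℕ) (hn : 2 ≤ n) :
    ∑ j ∈ range e, (2 * (j : ℚ) + 3) * (1 / (n : ℚ) ^ (j + 1))
      ≤ (3 * (n : ℚ) - 1) / ((n : ℚ) - 1) ^ 2 := by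
  have hn' : (2 : ℚ) ≤ n := by exact_mod_cast hn
  have h1 : (n : ℚ) - 1 ≠ 0 := by linarith
  have h2 : (n : ℚ) ≠ 0 := by linarith
  have key : ∑ j ∈ range e, (2 * (j : ℚ) + 3) * (1 / (n : ℚ) ^ (j + 1))
      = (3 * (n : ℚ) - 1) / ((n : ℚ) - 1) ^ 2
        - ((2 * e + 3) * ((n : ℚ) - 1) + 2) / (((n : ℚ) - 1) ^ 2 * n ^ e) := by
    induction e with
    | zero => simp; field_simp; ring
    | succ e ih =>
      rw [sum_range_succ, ih]
      push_cast
      field_simp
      ring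
  rw [key]
  have : 0 ≤ ((2 * e + 3) * ((n : ℚ) - 1) + 2) / (((n : ℚ) - 1) ^ 2 * n ^ e) := by
    apply div_nonneg
    · have : 0 ≤ (2 * (e : ℚ) + 3) * ((n : ℚ) - 1) := mul_nonneg (by positivity) (by linarith)
      linarith
    · positivity
  linarith

lemma mu_succ' {n : ℕ} (hn : n ≠ 3) (j : ℕ) : mu n (j + 1) = 4 / 3 * (1 / (n : ℚ) ^ (j + 1)) := by
  rw [mu_succ]
  unfold dbar
  rw [if_neg hn]
  ring

lemma piw_moment_one (e n : ℕ) (hn : 5 ≤ n) :
    ∑ v ∈ range (e + 1), piw e (mu n) v * ((v : ℚ) + 1) ≤ 1 + 4 / 3 * (1 / ((n : ℚ) - 1)) := by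
  rw [sum_piw_mul, mu_zero]
  have h1 : ∀ j ∈ range e, mu n (j + 1) * ((((j + 1 : ℕ) : ℚ) + 1) - ((j : ℚ) + 1))
      = 4 / 3 * (1 / (n : ℚ) ^ (j + 1)) := by
    intro j _
    rw [mu_succ' (by omega)]
    push_cast
    ring
  rw [sum_congr rfl h1, ← mul_sum]
  have := sum_inv_pow_le n e (by omega)
  push_cast
  linarith

lemma piw_moment_two (e n : ℕ) (hn : 5 ≤ n) :
    ∑ v ∈ range (e + 1), piw e (mu n) v * ((v : ℚ) + 1) ^ 2
      ≤ 1 + 4 / 3 * ((3 * (n : ℚ) - 1) / ((n : ℚ) - 1) ^ 2) := by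
  rw [sum_piw_mul, mu_zero]
  have h1 : ∀ j ∈ range e, mu n (j + 1) * ((((j + 1 : ℕ) : ℚ) + 1) ^ 2 - ((j : ℚ) + 1) ^ 2)
      = 4 / 3 * ((2 * (j : ℚ) + 3) * (1 / (n : ℚ) ^ (j + 1))) := by
    intro j _
    rw [mu_succ' (by omega)]
    push_cast
    ring
  rw [sum_congr rfl h1, ← mul_sum]
  have := sum_odd_pow_le n e (by omega)
  push_cast
  linarith

/-- First moment. -/
noncomputable def m1 (e k : ℕ) : ℚ := EB e k (fun i => (i : ℚ))
/-- Second moment. -/
noncomputable def m2 (e k : ℕ) : ℚ := EB e k (fun i => (i : ℚ) ^ 2)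

lemma m1_nonneg (e k : ℕ) : 0 ≤ m1 e k := EB_nonneg e k _ fun i => by positivity
lemma m2_nonneg (e k : ℕ) : 0 ≤ m2 e k := EB_nonneg e k _ fun i => by positivity

lemma m1_zero_le (e : ℕ) : m1 e 0 ≤ 11 / 6 := by
  unfold m1 EB
  have h1 : ∀ v ∈ range (e + 1), piw e (mu 5) v * ((((v + 1 : ℕ) : ℚ) + ((v + 2 : ℕ) : ℚ)) / 2)
      = piw e (mu 5) v * ((v : ℚ) + 3 / 2) := by
    intro v _
    push_cast
    ring
  rw [sum_congr rfl h1, sum_piw_mul, mu_zero]
  have h2 : ∀ j ∈ range e, mu 5 (j + 1) * ((((j + 1 : ℕ) : ℚ) + 3 / 2) - ((j : ℚ) + 3 / 2))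
      = 4 / 3 * (1 / ((5 : ℕ) : ℚ) ^ (j + 1)) := by
    intro j _
    rw [mu_succ' (by norm_num)]
    push_cast
    ring
  rw [sum_congr rfl h2, ← mul_sum]
  have := sum_inv_pow_le 5 e (by norm_num)
  norm_num at this ⊢
  linarith

lemma m2_zero_le (e : ℕ) : m2 e 0 ≤ 4 := by
  unfold m2 EB
  have h1 : ∀ v ∈ range (e + 1), piw e (mu 5) v * ((((v + 1 : ℕ) : ℚ) ^ 2 + ((v + 2 : ℕ) : ℚ) ^ 2) / 2)
      = piw e (mu 5) v * ((v : ℚ) ^ 2 + 3 * v + 5 / 2) := by
    intro v _
    push_cast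
    ring
  rw [sum_congr rfl h1, sum_piw_mul, mu_zero]
  have h2 : ∀ j ∈ range e, mu 5 (j + 1) * ((((j + 1 : ℕ) : ℚ) ^ 2 + 3 * ((j + 1 : ℕ) : ℚ) + 5 / 2)
      - ((j : ℚ) ^ 2 + 3 * (j : ℚ) + 5 / 2))
      = 4 / 3 * ((2 * (j : ℚ) + 3) * (1 / ((5 : ℕ) : ℚ) ^ (j + 1)))
        + 4 / 3 * (1 / ((5 : ℕ) : ℚ) ^ (j + 1)) := by
    intro j _
    rw [mu_succ' (by norm_num)]
    push_cast
    ring
  rw [sum_congr rfl h2, sum_add_distrib, ← mul_sum, ← mul_sum]
  have h3 := sum_inv_pow_le 5 e (by norm_num)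
  have h4 := sum_odd_pow_le 5 e (by norm_num)
  norm_num at h3 h4 ⊢
  linarith

lemma m1_succ_prime {e k : ℕ} (hk : (k + 7).Prime) :
    m1 e (k + 1) ≤ m1 e k * (1 + 4 / 3 * (1 / (((k + 7 : ℕ) : ℚ) - 1))) := by
  unfold m1
  rw [EB_succ_prime hk]
  have h1 : ∀ v ∈ range (e + 1), piw e (mu (k + 7)) v * EB e k (fun m => (((v + 1) * m : ℕ) : ℚ))
      = (piw e (mu (k + 7)) v * ((v : ℚ) + 1)) * EB e k (fun i => (i : ℚ)) := by
    intro v _
    rw [← EB_smul, ← EB_smul]
    congr 1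
    funext m
    push_cast
    ring
  rw [sum_congr rfl h1, ← sum_mul, mul_comm]
  exact mul_le_mul_of_nonneg_left (piw_moment_one e (k + 7) (by omega)) (m1_nonneg e k)

lemma m2_succ_prime {e k : ℕ} (hk : (k + 7).Prime) :
    m2 e (k + 1) ≤ m2 e k * (1 + 4 / 3 * ((3 * ((k + 7 : ℕ) : ℚ) - 1)
      / (((k + 7 : ℕ) : ℚ) - 1) ^ 2)) := by
  unfold m2
  rw [EB_succ_prime hk]
  have h1 : ∀ v ∈ range (e + 1), piw e (mu (k + 7)) v * EB e k (fun m => (((v + 1) * m : ℕ) : ℚ) ^ 2)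
      = (piw e (mu (k + 7)) v * ((v : ℚ) + 1) ^ 2) * EB e k (fun i => (i : ℚ) ^ 2) := by
    intro v _
    rw [← EB_smul, ← EB_smul]
    congr 1
    funext m
    push_cast
    ring
  rw [sum_congr rfl h1, ← sum_mul, mul_comm]
  exact mul_le_mul_of_nonneg_left (piw_moment_two e (k + 7) (by omega)) (m2_nonneg e k)

lemma m1_succ_not {e k : ℕ} (hk : ¬ (k + 7).Prime) : m1 e (k + 1) = m1 e k := EB_succ_not hk _
lemma m2_succ_not {e k : ℕ} (hk : ¬ (k + 7).Prime) : m2 e (k + 1) = m2 e k := EB_succ_not hk _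

/-! ### Point masses -/

/-- Indicator function of `{i}`. -/
def ptf (i : ℕ) (m : ℕ) : ℚ := if m = i then 1 else 0

/-- The point mass at `i`. -/
noncomputable def pm (e k i : ℕ) : ℚ := EB e k (ptf i)

lemma pm_nonneg (e k i : ℕ) : 0 ≤ pm e k i :=
  EB_nonneg e k _ fun m => by unfold ptf; split_ifs <;> norm_num

/-- weight at `d = v + 1` -/
def wq (n d : ℕ) : ℚ := mu n (d - 1) - mu n d

lemma pm_succ_prime {e k i : ℕ} (hk : (k + 7).Prime) (hi : 1 ≤ i) (hie : i ≤ e) :
    pm e (k + 1) i = ∑ d ∈ range (i + 1), if d = 0 then 0 else if i % d = 0 then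
      wq (k + 7) d * pm e k (i / d) else 0 := by
  unfold pm
  rw [EB_succ_prime hk]
  have hz : EB e k (fun _ => (0 : ℚ)) = 0 := EB_const e k 0
  have h1 : ∀ v ∈ range (e + 1), piw e (mu (k + 7)) v * EB e k (fun m => ptf i ((v + 1) * m))
      = if i % (v + 1) = 0 then piw e (mu (k + 7)) v * EB e k (ptf (i / (v + 1))) else 0 := by
    intro v _
    split_ifs with h
    · congr 1
      congr 1
      funext m
      unfold ptf
      congr 1
      apply propext
      constructor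
      · intro hh
        rw [← hh, Nat.mul_div_cancel_left _ (Nat.succ_pos v)]
      · intro hh
        rw [hh, Nat.mul_div_cancel' (Nat.dvd_of_mod_eq_zero h)]
    · have : (fun m => ptf i ((v + 1) * m)) = fun _ => (0 : ℚ) := by
        funext m
        unfold ptf
        rw [if_neg]
        intro hh
        apply h
        rw [← hh]
        exact Nat.mul_mod_right _ _
      rw [this, hz, mul_zero]
  rw [sum_congr rfl h1]
  -- remove the terms with v + 1 > i
  have hsub : range i ⊆ range (e + 1) := range_subset_range.2 (by omega)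
  rw [← sum_subset hsub]
  · rw [sum_range_succ' (fun d => if d = 0 then (0 : ℚ) else if i % d = 0 then
      wq (k + 7) d * EB e k (ptf (i / d)) else 0) i]
    simp only [if_true, add_zero]
    refine sum_congr rfl fun v hv => ?_
    rw [mem_range] at hv
    rw [if_neg (Nat.succ_ne_zero v)]
    split_ifs with h
    · congr 1
      unfold piw wq
      rw [if_pos (by omega)]
      simp
    · rfl
  · intro v _ hv2
    rw [mem_range, not_lt] at hv2
    rw [if_neg]
    rw [Nat.mod_eq_of_lt (by omega)]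
    omega

lemma pm_succ_not {e k i : ℕ} (hk : ¬ (k + 7).Prime) : pm e (k + 1) i = pm e k i := EB_succ_not hk _

lemma pm_zero (e : ℕ) {i : ℕ} (hi : 1 ≤ i) (hie : i ≤ e) :
    pm e 0 i = ((mu 5 (i - 1) - mu 5 i) + if i = 1 then 0 else (mu 5 (i - 2) - mu 5 (i - 1))) / 2 := by
  unfold pm EB
  have h1 : ∀ v ∈ range (e + 1), piw e (mu 5) v * ((ptf i (v + 1) + ptf i (v + 2)) / 2)
      = (if v = i - 1 then piw e (mu 5) v / 2 else 0)
        + (if v + 2 = i then piw e (mu 5) v / 2 else 0) := by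
    intro v _
    unfold ptf
    by_cases h1 : v + 1 = i
    · have h2 : ¬ (v + 2 = i) := by omega
      have h3 : v = i - 1 := by omega
      rw [if_pos h1, if_neg h2, if_pos h3, if_neg h2]
      ring
    · have h3 : ¬ (v = i - 1) := by omega
      by_cases h2 : v + 2 = i
      · rw [if_neg h1, if_pos h2, if_neg h3, if_pos h2]
        ring
      · rw [if_neg h1, if_neg h2, if_neg h3, if_neg h2]
        ring
  rw [sum_congr rfl h1, sum_add_distrib]
  have hA : ∑ v ∈ range (e + 1), (if v = i - 1 then piw e (mu 5) v / 2 else 0)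
      = (mu 5 (i - 1) - mu 5 i) / 2 := by
    rw [sum_ite_eq', if_pos (mem_range.2 (by omega))]
    unfold piw
    rw [if_pos (by omega)]
    congr 3
    omega
  have hB : ∑ v ∈ range (e + 1), (if v + 2 = i then piw e (mu 5) v / 2 else 0)
      = (if i = 1 then 0 else (mu 5 (i - 2) - mu 5 (i - 1))) / 2 := by
    by_cases h : i = 1
    · rw [if_pos h, zero_div]
      apply sum_eq_zero
      intro v _
      rw [if_neg (by omega)]
    · rw [if_neg h]
      have : ∀ v ∈ range (e + 1), (if v + 2 = i then piw e (mu 5) v / 2 else 0)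
          = (if v = i - 2 then piw e (mu 5) v / 2 else 0) := by
        intro v _
        by_cases h2 : v + 2 = i
        · rw [if_pos h2, if_pos (by omega)]
        · rw [if_neg h2, if_neg (by omega)]
      rw [sum_congr rfl this, sum_ite_eq', if_pos (mem_range.2 (by omega))]
      unfold piw
      rw [if_pos (by omega)]
      congr 3
      omega
  rw [hA, hB]
  ring

/-! ### The loss at `n` -/

/-- The loss term at `n`. -/
noncomputable def cost (e n : ℕ) : ℚ :=
  (4 / 3 : ℚ) * ((1 / ((n : ℚ) - 1)) *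
        EB e (n - 7) (fun i => max ((i : ℚ) - ((n : ℚ) - 1) / 4) 0))

lemma cost_nonneg (e n : ℕ) (hn : 7 ≤ n) : 0 ≤ cost e n := by
  unfold cost
  have hn7 : (7 : ℚ) ≤ n := by exact_mod_cast hn
  have := EB_nonneg e (n - 7) (fun i => max ((i : ℚ) - ((n : ℚ) - 1) / 4) 0)
    fun i => le_max_right _ _
  have h2 : 0 ≤ 1 / ((n : ℚ) - 1) := div_nonneg zero_le_one (by linarith)
  positivity

/-- Second moment bound for the loss. -/
lemma cost_le_m2 (e n : ℕ) (hn : 7 ≤ n) :
    cost e n ≤ 4 / 3 * (1 / ((n : ℚ) - 1) ^ 2) * m2 e (n - 7) := by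
  have hn7 : (7 : ℚ) ≤ n := by exact_mod_cast hn
  have hpos : (0 : ℚ) < (n : ℚ) - 1 := by linarith
  have h1 : EB e (n - 7) (fun i => max ((i : ℚ) - ((n : ℚ) - 1) / 4) 0)
      ≤ EB e (n - 7) (fun i => (1 / ((n : ℚ) - 1)) * (i : ℚ) ^ 2) := by
    apply EB_mono
    intro i _
    apply max_le
    · rw [← sub_nonneg]
      have : (1 / ((n : ℚ) - 1)) * (i : ℚ) ^ 2 - ((i : ℚ) - ((n : ℚ) - 1) / 4)
          = (1 / ((n : ℚ) - 1)) * ((i : ℚ) - ((n : ℚ) - 1) / 2) ^ 2 := by
        field_simp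
        ring
      rw [this]
      positivity
    · positivity
  rw [EB_smul] at h1
  unfold cost
  have h2 : (1 / ((n : ℚ) - 1)) * EB e (n - 7) (fun i => max ((i : ℚ) - ((n : ℚ) - 1) / 4) 0)
      ≤ (1 / ((n : ℚ) - 1)) * (1 / ((n : ℚ) - 1) * m2 e (n - 7)) :=
    mul_le_mul_of_nonneg_left h1 (by positivity)
  calc _ ≤ 4 / 3 * ((1 / ((n : ℚ) - 1)) * (1 / ((n : ℚ) - 1) * m2 e (n - 7))) := by
        linarith
    _ = _ := by
        field_simp

/-- Exact formula (upper bound) for the loss through the point masses. -/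
lemma cost_le_pm (e n K : ℕ) (hn : 7 ≤ n) (hK : n ≤ 4 * K + 1) :
    cost e n ≤ (4 * m1 e (n - 7) - ((n : ℚ) - 1)
      + ∑ j ∈ Icc 1 K, max ((n : ℚ) - 1 - 4 * j) 0 * pm e (n - 7) j) / (3 * ((n : ℚ) - 1)) := by
  have hn7 : (7 : ℚ) ≤ n := by exact_mod_cast hn
  have hpos : (0 : ℚ) < (n : ℚ) - 1 := by linarith
  have hKq : (n : ℚ) ≤ 4 * K + 1 := by exact_mod_cast hK
  have h1 : EB e (n - 7) (fun i => max ((i : ℚ) - ((n : ℚ) - 1) / 4) 0)
      = EB e (n - 7) (fun i => ((i : ℚ) + (-(((n : ℚ) - 1) / 4)))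
        + ∑ j ∈ Icc 1 K, (max ((n : ℚ) - 1 - 4 * j) 0 / 4) * ptf j i) := by
    apply EB_congr
    intro i hi
    have h2 : ∑ j ∈ Icc 1 K, (max ((n : ℚ) - 1 - 4 * j) 0 / 4) * ptf j i
        = max ((n : ℚ) - 1 - 4 * i) 0 / 4 := by
      unfold ptf
      simp only [mul_ite, mul_one, mul_zero]
      rw [sum_ite_eq (Icc 1 K) i (fun j => max ((n : ℚ) - 1 - 4 * (j : ℚ)) 0 / 4)]
      split_ifs with h
      · rfl
      · rw [mem_Icc, not_and_or] at h
        have hiK : K < i := by omega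
        have : (K : ℚ) < i := by exact_mod_cast hiK
        rw [max_eq_right (by linarith), zero_div]
    rw [h2]
    rcases le_total ((i : ℚ)) (((n : ℚ) - 1) / 4) with h | h
    · rw [max_eq_right (by linarith), max_eq_left (by linarith)]
      ring
    · rw [max_eq_left (by linarith), max_eq_right (by linarith)]
      ring
  unfold cost
  rw [h1, EB_add, EB_add, EB_const, EB_sum]
  simp only [EB_smul]
  apply le_of_eq
  have h3 : ∑ j ∈ Icc 1 K, (max ((n : ℚ) - 1 - 4 * j) 0 / 4) * EB e (n - 7) (ptf j)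
      = (∑ j ∈ Icc 1 K, max ((n : ℚ) - 1 - 4 * j) 0 * pm e (n - 7) j) / 4 := by
    rw [sum_div]
    refine sum_congr rfl fun j _ => ?_
    unfold pm
    ring
  rw [h3]
  unfold m1
  field_simp
  ring

end Pool.Agent.Helper53.Cover
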