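import Mathlib
import Pool.Agent.Helper53.Cover.Model

/-!
# Numerical verification
-/

set_option autoImplicit false

namespace Pool.Agent.Helper53.Cover

open Finset Function

/-- Sum of the losses over the primes in `[a, b)`. -/
noncomputable def Scost (e a b : ℕ) : ℚ := ∑ n ∈ (Ico a b).filter Nat.Prime, cost e n

lemma Scost_succ_prime {e a b : ℕ} (hab : a ≤ b) (hb : b.Prime) :
    Scost e a (b + 1) = Scost e a b + cost e b := by
  unfold Scost
  rw [show b + 1 = b.succ from rfl, Nat.Ico_succ_right_eq_insert_Ico hab, filter_insert, if_pos hb,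
    sum_insert (by simp)]
  ring

lemma Scost_succ_not {e a b : ℕ} (hab : a ≤ b) (hb : ¬ b.Prime) :
    Scost e a (b + 1) = Scost e a b := by
  unfold Scost
  rw [show b + 1 = b.succ from rfl, Nat.Ico_succ_right_eq_insert_Ico hab, filter_insert, if_neg hb]

lemma Scost_add {e a b c : ℕ} (hab : a ≤ b) (hbc : b ≤ c) :
    Scost e a c = Scost e a b + Scost e b c := by
  unfold Scost
  rw [← Ico_union_Ico_eq_Ico hab hbc, filter_union, sum_union]
  exact disjoint_filter_filter (Ico_disjoint_Ico_consecutive a b c)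

lemma Scost_mono {e a b c : ℕ} (ha : 7 ≤ a) (hbc : b ≤ c) : Scost e a b ≤ Scost e a c := by
  unfold Scost
  apply sum_le_sum_of_subset_of_nonneg
  · apply filter_subset_filter
    exact Ico_subset_Ico le_rfl hbc
  · intro n hn _
    rw [mem_filter, mem_Ico] at hn
    exact cost_nonneg e n (by omega)

lemma Scost_nonneg {e a b : ℕ} (ha : 7 ≤ a) : 0 ≤ Scost e a b := by
  unfold Scost
  apply sum_nonneg
  intro n hn
  rw [mem_filter, mem_Ico] at hn
  exact cost_nonneg e n (by omega)

/-! ### Exact range -/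

/-- Size of the tables. -/
def KK : ℕ := 50
/-- Fixed point scale. -/
def sc : ℕ := 10 ^ 15

/-- Upper bound for `x` times the weight at `d`. -/
def wmul (n d x : ℕ) : ℕ :=
  if d = 1 then (x * (3 * n - 4)) / (3 * n) + 1 else (x * (4 * (n - 1))) / (3 * n ^ d) + 1

/-- New table entry. -/
def entry (n : ℕ) (L : List ℕ) (i : ℕ) : ℕ :=
  ((List.range (i + 1)).map (fun d => if d = 0 then 0 else
    if i % d = 0 then wmul n d (L.getD (i / d) 0) else 0)).sum

/-- New table. -/
def stepL (n : ℕ) (L : List ℕ) : List ℕ := (List.range (KK + 1)).map (entry n L)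

/-- Weights at `5`. -/
def w5 (v : ℕ) : ℕ := if v = 0 then (11 * sc) / 15 + 1 else (16 * sc) / (15 * 5 ^ v) + 1

/-- Initial entry. -/
def baseE (i : ℕ) : ℕ :=
  if i = 0 then 0 else if i = 1 then (w5 0) / 2 + 1 else (w5 (i - 1) + w5 (i - 2)) / 2 + 1

/-- Initial table. -/
def baseL : List ℕ := (List.range (KK + 1)).map baseE

/-- Upper bound for the scaled loss. -/
def costN (n : ℕ) (L : List ℕ) (M : ℕ) : ℕ :=
  (4 * M + ((List.range (KK + 1)).map (fun k => (n - 1 - 4 * k) * L.getD k 0)).sum - (n - 1) * sc)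
    / (3 * (n - 1)) + 1

/-- Primality test for `7 ≤ n < 200`. -/
def isP (n : ℕ) : Bool :=
  n == 7 || n == 11 || n == 13 || (Nat.ble 17 n && Nat.gcd n 30030 == 1)

/-- State of the computation. -/
structure St where
  /-- table of point masses -/
  L : List ℕ
  /-- first moment -/
  M : ℕ
  /-- second moment -/
  F : ℕ
  /-- accumulated loss -/
  T : ℕ

/-- One step. -/
def stepS (k : ℕ) (s : St) : St :=
  if isP (k + 7) then
    ⟨stepL (k + 7) s.L, s.M + 4 * s.M / (3 * (k + 6)) + 1,
      s.F + s.F * (4 * (3 * k + 20)) / (3 * (k + 6) ^ 2) + 1,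
      s.T + costN (k + 7) s.L s.M⟩
  else s

/-- The state at level `k`. -/
def run : ℕ → St
  | 0 => ⟨baseL, 11 * sc / 6 + 1, 4 * sc, 0⟩
  | (k + 1) => stepS k (run k)

lemma isP_iff {n : ℕ} (h1 : 7 ≤ n) (h2 : n < 200) : isP n = true ↔ n.Prime := by
  interval_cases n <;> norm_num [isP]

lemma getD_map_range (f : ℕ → ℕ) (K i : ℕ) (h : i ≤ K) :
    ((List.range (K + 1)).map f).getD i 0 = f i := by
  rw [List.getD_eq_getElem?_getD, List.getElem?_map, List.getElem?_range (by omega)]
  rfl

lemma sum_map_range (f : ℕ → ℕ) (n : ℕ) :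
    ((List.range n).map f).sum = ∑ i ∈ range n, f i := by
  induction n with
  | zero => simp
  | succ n ih => rw [List.range_succ, List.map_append, List.sum_append, ih, sum_range_succ]; simp

lemma div_le_natDiv (a b : ℕ) (hb : 0 < b) : (a : ℚ) / b ≤ ((a / b + 1 : ℕ) : ℚ) := by
  have hb' : (0 : ℚ) < b := by exact_mod_cast hb
  rw [div_le_iff₀ hb']
  have : a < (a / b + 1) * b := by
    have := Nat.lt_mul_div_succ a hb
    rw [mul_comm]
    exact this
  exact_mod_cast this.le

lemma mu5_diff (v : ℕ) : (sc : ℚ) * (mu 5 v - mu 5 (v + 1)) ≤ (w5 v : ℚ) := by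
  unfold w5
  split_ifs with h
  · subst h
    refine le_trans (le_of_eq ?_) (div_le_natDiv (11 * sc) 15 (by norm_num))
    rw [mu_zero, mu_succ' (by norm_num)]
    push_cast
    ring
  · refine le_trans (le_of_eq ?_) (div_le_natDiv (16 * sc) (15 * 5 ^ v) (by positivity))
    obtain ⟨j, rfl⟩ : ∃ j, v = j + 1 := ⟨v - 1, by omega⟩
    rw [mu_succ' (by norm_num), mu_succ' (by norm_num)]
    push_cast
    field_simp
    ring

lemma wmul_le {n d x : ℕ} {y : ℚ} (hn : 7 ≤ n) (hd : 1 ≤ d) (hy : (sc : ℚ) * y ≤ x) :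
    (sc : ℚ) * (wq n d * y) ≤ (wmul n d x : ℚ) := by
  have hn' : (7 : ℚ) ≤ n := by exact_mod_cast hn
  have hn0 : (n : ℚ) ≠ 0 := by linarith
  unfold wmul
  split_ifs with h
  · subst h
    have hw : wq n 1 = (3 * n - 4) / (3 * n) := by
      unfold wq
      rw [mu_zero, mu_succ' (by omega)]
      field_simp
      ring
    have hw0 : 0 ≤ wq n 1 := by
      rw [hw]
      apply div_nonneg <;> linarith
    calc (sc : ℚ) * (wq n 1 * y) = wq n 1 * (sc * y) := by ring
      _ ≤ wq n 1 * x := mul_le_mul_of_nonneg_left hy hw0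
      _ = ((x * (3 * n - 4) : ℕ) : ℚ) / ((3 * n : ℕ) : ℚ) := by
          rw [hw]
          push_cast [Nat.cast_sub (show 4 ≤ 3 * n by omega)]
          ring
      _ ≤ _ := div_le_natDiv _ _ (by omega)
  · obtain ⟨j, rfl⟩ : ∃ j, d = j + 2 := ⟨d - 2, by omega⟩
    have hw : wq n (j + 2) = 4 * (n - 1) / (3 * n ^ (j + 2)) := by
      unfold wq
      have h1 : j + 2 - 1 = j + 1 := by omega
      rw [h1, mu_succ' (by omega), show j + 2 = (j + 1) + 1 by ring, mu_succ' (by omega)]
      field_simp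
      ring
    have hw0 : 0 ≤ wq n (j + 2) := by
      rw [hw]
      apply div_nonneg
      · linarith
      · positivity
    calc (sc : ℚ) * (wq n (j + 2) * y) = wq n (j + 2) * (sc * y) := by ring
      _ ≤ wq n (j + 2) * x := mul_le_mul_of_nonneg_left hy hw0
      _ = ((x * (4 * (n - 1)) : ℕ) : ℚ) / ((3 * n ^ (j + 2) : ℕ) : ℚ) := by
          rw [hw]
          push_cast [Nat.cast_sub (show 1 ≤ n by omega)]
          ring
      _ ≤ _ := div_le_natDiv _ _ (by positivity)

/-- Invariant of the computation. -/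
structure Inv (e k : ℕ) (s : St) : Prop where
  hL : ∀ i, 1 ≤ i → i ≤ KK → (sc : ℚ) * pm e k i ≤ ((s.L.getD i 0 : ℕ) : ℚ)
  hM : (sc : ℚ) * m1 e k ≤ s.M
  hF : (sc : ℚ) * m2 e k ≤ s.F
  hT : (sc : ℚ) * Scost e 7 (k + 7) ≤ s.T

lemma inv_zero {e : ℕ} (he : KK ≤ e) : Inv e 0 (run 0) := by
  refine ⟨?_, ?_, ?_, ?_⟩
  · intro i hi hiK
    have h1 : (run 0).L = baseL := rfl
    rw [h1]
    unfold baseL
    rw [getD_map_range _ _ _ hiK, pm_zero e hi (hiK.trans he)]
    unfold baseE
    rw [if_neg (show ¬ i = 0 by omega)]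
    by_cases h : i = 1
    · rw [if_pos h, if_pos h]
      subst h
      refine le_trans (le_of_eq ?_) ((div_le_div_of_nonneg_right (mu5_diff 0)
        (by norm_num : (0:ℚ) ≤ 2)).trans (div_le_natDiv (w5 0) 2 (by norm_num)))
      ring
    · rw [if_neg h, if_neg h]
      have h2 := mu5_diff (i - 1)
      have h3 := mu5_diff (i - 2)
      have e1 : i - 1 + 1 = i := by omega
      have e2 : i - 2 + 1 = i - 1 := by omega
      rw [e1] at h2
      rw [e2] at h3
      refine le_trans (le_of_eq ?_) ((div_le_div_of_nonneg_right (add_le_add h2 h3)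
        (by norm_num : (0:ℚ) ≤ 2)).trans ?_)
      · ring
      · have := div_le_natDiv (w5 (i - 1) + w5 (i - 2)) 2 (by norm_num)
        push_cast at this ⊢
        exact this
  · have h1 := m1_zero_le e
    have h2 : (run 0).M = 11 * sc / 6 + 1 := rfl
    rw [h2]
    refine le_trans ?_ (div_le_natDiv (11 * sc) 6 (by norm_num))
    have h3 : (0 : ℚ) ≤ sc := by positivity
    have := mul_le_mul_of_nonneg_left h1 h3
    push_cast
    linarith
  · have h1 := m2_zero_le e
    have h2 : (run 0).F = 4 * sc := rfl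
    rw [h2]
    have h3 : (0 : ℚ) ≤ sc := by positivity
    have := mul_le_mul_of_nonneg_left h1 h3
    push_cast
    linarith
  · have h2 : (run 0).T = 0 := rfl
    rw [h2]
    unfold Scost
    simp

lemma inv_succ {e k : ℕ} (he : KK ≤ e) (hk : k + 7 < 200) (s : St) (h : Inv e k s) :
    Inv e (k + 1) (stepS k s) := by
  have hsc : (0 : ℚ) ≤ sc := by positivity
  by_cases hp : (k + 7).Prime
  · have hisP : isP (k + 7) = true := (isP_iff (by omega) hk).2 hp
    have hrun : stepS k s = ⟨stepL (k + 7) s.L, s.M + 4 * s.M / (3 * (k + 6)) + 1,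
        s.F + s.F * (4 * (3 * k + 20)) / (3 * (k + 6) ^ 2) + 1,
        s.T + costN (k + 7) s.L s.M⟩ := by
      simp only [stepS, hisP, if_true]
    rw [hrun]
    refine ⟨?_, ?_, ?_, ?_⟩
    · intro i hi hiK
      show (sc : ℚ) * pm e (k + 1) i ≤ (((stepL (k + 7) s.L).getD i 0 : ℕ) : ℚ)
      unfold stepL
      rw [getD_map_range _ _ _ hiK, pm_succ_prime hp hi (hiK.trans he)]
      unfold entry
      rw [sum_map_range, mul_sum]
      push_cast
      apply sum_le_sum
      intro d hd
      rw [mem_range] at hd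
      by_cases hd0 : d = 0
      · simp [hd0]
      · rw [if_neg hd0, if_neg hd0]
        by_cases hm : i % d = 0
        · rw [if_pos hm, if_pos hm]
          apply wmul_le (by omega) (by omega)
          apply h.hL
          · exact Nat.div_pos (by omega) (by omega)
          · exact (Nat.div_le_self _ _).trans hiK
        · rw [if_neg hm, if_neg hm]
          simp
    · show (sc : ℚ) * m1 e (k + 1) ≤ ((s.M + 4 * s.M / (3 * (k + 6)) + 1 : ℕ) : ℚ)
      have h1 := m1_succ_prime (e := e) hp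
      have h2 := div_le_natDiv (4 * s.M) (3 * (k + 6)) (by omega)
      have hc : (((k + 7 : ℕ) : ℚ) - 1) = (k : ℚ) + 6 := by push_cast; ring
      rw [hc] at h1
      have hk6 : (0 : ℚ) < (k : ℚ) + 6 := by positivity
      have hfac : (0 : ℚ) ≤ 1 + 4 / 3 * (1 / ((k : ℚ) + 6)) := by positivity
      calc (sc : ℚ) * m1 e (k + 1) ≤ sc * (m1 e k * (1 + 4 / 3 * (1 / ((k : ℚ) + 6)))) :=
            mul_le_mul_of_nonneg_left h1 hsc
        _ = (sc * m1 e k) * (1 + 4 / 3 * (1 / ((k : ℚ) + 6))) := by ring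
        _ ≤ s.M * (1 + 4 / 3 * (1 / ((k : ℚ) + 6))) :=
            mul_le_mul_of_nonneg_right h.hM hfac
        _ = s.M + ((4 * s.M : ℕ) : ℚ) / ((3 * (k + 6) : ℕ) : ℚ) := by
            push_cast
            field_simp
        _ ≤ s.M + ((4 * s.M / (3 * (k + 6)) + 1 : ℕ) : ℚ) := by linarith
        _ = _ := by push_cast; ring
    · show (sc : ℚ) * m2 e (k + 1)
        ≤ ((s.F + s.F * (4 * (3 * k + 20)) / (3 * (k + 6) ^ 2) + 1 : ℕ) : ℚ)
      have h1 := m2_succ_prime (e := e) hp
      have h2 := div_le_natDiv (s.F * (4 * (3 * k + 20))) (3 * (k + 6) ^ 2) (by positivity)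
      have hc : (((k + 7 : ℕ) : ℚ) - 1) = (k : ℚ) + 6 := by push_cast; ring
      have hc2 : (3 * ((k + 7 : ℕ) : ℚ) - 1) = 3 * (k : ℚ) + 20 := by push_cast; ring
      rw [hc, hc2] at h1
      have hk6 : (0 : ℚ) < (k : ℚ) + 6 := by positivity
      have hfac : (0 : ℚ) ≤ 1 + 4 / 3 * ((3 * (k : ℚ) + 20) / ((k : ℚ) + 6) ^ 2) := by positivity
      calc (sc : ℚ) * m2 e (k + 1)
          ≤ sc * (m2 e k * (1 + 4 / 3 * ((3 * (k : ℚ) + 20) / ((k : ℚ) + 6) ^ 2))) :=
            mul_le_mul_of_nonneg_left h1 hsc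
        _ = (sc * m2 e k) * (1 + 4 / 3 * ((3 * (k : ℚ) + 20) / ((k : ℚ) + 6) ^ 2)) := by ring
        _ ≤ s.F * (1 + 4 / 3 * ((3 * (k : ℚ) + 20) / ((k : ℚ) + 6) ^ 2)) :=
            mul_le_mul_of_nonneg_right h.hF hfac
        _ = s.F + ((s.F * (4 * (3 * k + 20)) : ℕ) : ℚ) / ((3 * (k + 6) ^ 2 : ℕ) : ℚ) := by
            push_cast
            field_simp
        _ ≤ s.F + ((s.F * (4 * (3 * k + 20)) / (3 * (k + 6) ^ 2) + 1 : ℕ) : ℚ) := by
            linarith
        _ = _ := by push_cast; ring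
    · show (sc : ℚ) * Scost e 7 (k + 1 + 7)
        ≤ ((s.T + costN (k + 7) s.L s.M : ℕ) : ℚ)
      have e1 : k + 1 + 7 = (k + 7) + 1 := by ring
      rw [e1, Scost_succ_prime (by omega) hp, mul_add]
      push_cast
      apply add_le_add h.hT
      have hc := cost_le_pm e (k + 7) KK (by omega) (by unfold KK; omega)
      have e2 : k + 7 - 7 = k := by omega
      rw [e2] at hc
      have hcc : (((k + 7 : ℕ) : ℚ) - 1) = (k : ℚ) + 6 := by push_cast; ring
      have hk6 : (0 : ℚ) < (k : ℚ) + 6 := by positivity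
      -- the sum of the table
      have hsum : (sc : ℚ) * ∑ j ∈ Icc 1 KK, max (((k + 7 : ℕ) : ℚ) - 1 - 4 * j) 0 * pm e k j
          ≤ ((((List.range (KK + 1)).map
            (fun j => (k + 7 - 1 - 4 * j) * s.L.getD j 0)).sum : ℕ) : ℚ) := by
        rw [sum_map_range, mul_sum]
        push_cast
        have hsub : Icc 1 KK ⊆ range (KK + 1) := by
          intro j hj
          rw [mem_Icc] at hj
          rw [mem_range]
          omega
        refine le_trans ?_ (sum_le_sum_of_subset_of_nonneg hsub (fun j _ _ => by positivity))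
        apply sum_le_sum
        intro j hj
        rw [mem_Icc] at hj
        have h3 := h.hL j hj.1 hj.2
        have h4 : max (((k : ℚ) + 7) - 1 - 4 * j) 0 = ((k + 7 - 1 - 4 * j : ℕ) : ℚ) := by
          rcases le_total (4 * j) (k + 6) with h5 | h5
          · rw [max_eq_left]
            · rw [Nat.cast_sub (by omega)]
              push_cast
              ring
            · have : (4 * (j : ℚ)) ≤ (k : ℚ) + 6 := by exact_mod_cast h5
              linarith
          · rw [max_eq_right]
            · rw [Nat.sub_eq_zero_of_le (by omega)]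
              simp
            · have : ((k : ℚ) + 6) ≤ 4 * (j : ℚ) := by exact_mod_cast h5
              linarith
        rw [h4]
        calc (sc : ℚ) * (((k + 7 - 1 - 4 * j : ℕ) : ℚ) * pm e k j)
            = ((k + 7 - 1 - 4 * j : ℕ) : ℚ) * (sc * pm e k j) := by ring
          _ ≤ _ := mul_le_mul_of_nonneg_left h3 (by positivity)
      have hM := h.hM
      unfold costN
      refine le_trans ?_ (div_le_natDiv _ _ (by omega))
      rw [hcc] at hc
      have h5 : (sc : ℚ) * cost e (k + 7) ≤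
          (4 * (sc * m1 e k) - sc * ((k : ℚ) + 6)
            + sc * ∑ j ∈ Icc 1 KK, max ((k : ℚ) + 6 - 4 * j) 0 * pm e k j) / (3 * ((k : ℚ) + 6)) := by
        refine (mul_le_mul_of_nonneg_left hc hsc).trans (le_of_eq ?_)
        ring
      refine h5.trans ?_
      have hden : ((3 * (k + 7 - 1) : ℕ) : ℚ) = 3 * ((k : ℚ) + 6) := by
        have : k + 7 - 1 = k + 6 := by omega
        rw [this]
        push_cast
        ring
      rw [hden]
      have hden0 : (0 : ℚ) ≤ 3 * ((k : ℚ) + 6) := by linarith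
      refine div_le_div_of_nonneg_right ?_ hden0
      rw [hcc] at hsum
      generalize ((List.range (KK + 1)).map
            (fun j => (k + 7 - 1 - 4 * j) * s.L.getD j 0)).sum = W at hsum ⊢
      have e3 : (k + 7 - 1) * sc = (k + 6) * sc := by
        congr 1
      rw [e3]
      have h7 : 4 * s.M + W ≤ 4 * s.M + W - (k + 6) * sc + (k + 6) * sc := by omega
      have h8 : 4 * (s.M : ℚ) + W ≤ ((4 * s.M + W - (k + 6) * sc : ℕ) : ℚ) + ((k : ℚ) + 6) * sc := by
        exact_mod_cast h7
      linarith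
  · have hisP : ¬ (isP (k + 7) = true) := fun hh => hp ((isP_iff (by omega) hk).1 hh)
    have hrun : stepS k s = s := by
      simp only [stepS]
      rw [if_neg hisP]
    rw [hrun]
    refine ⟨?_, ?_, ?_, ?_⟩
    · intro i hi hiK
      rw [pm_succ_not hp]
      exact h.hL i hi hiK
    · rw [m1_succ_not hp]; exact h.hM
    · rw [m2_succ_not hp]; exact h.hF
    · have e1 : k + 1 + 7 = (k + 7) + 1 := by ring
      rw [e1, Scost_succ_not (by omega) hp]
      exact h.hT

lemma inv_all {e : ℕ} (he : KK ≤ e) : ∀ k, k ≤ 193 → Inv e k (run k) := by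
  intro k
  induction k with
  | zero => intro _; exact inv_zero he
  | succ k ih => intro hk; exact inv_succ he (by omega) _ (ih (by omega))

end Pool.Agent.Helper53.Cover
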