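import Mathlib
import Pool.Agent.Helper53.Cover.Numeric

/-!
# The range above 200 and the tail
-/

set_option autoImplicit false

namespace Pool.Agent.Helper53.Cover

open Finset Function

/-- Growth factor and accumulated loss (scaled) of a block. -/
structure GK where
  /-- growth -/
  G : ℕ
  /-- loss -/
  K : ℕ

/-- scale -/
def s0 : ℕ := 10 ^ 18

/-- Product of the primes up to 256. -/
def PB : ℕ := 64266330917908644872330635228106713310880186591609208114244758680898150367880703152525200743234420230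

/-- A necessary condition for primality of `n ≥ 200`. -/
def cand (n : ℕ) : Bool := if Nat.ble n 256 then Nat.gcd n 30030 == 1 else Nat.gcd n PB == 1

/-- Leaves of the tree. -/
def leaf (n : ℕ) : GK :=
  if cand n then ⟨s0 + s0 * (4 * (3 * n - 1)) / (3 * (n - 1) ^ 2) + 1,
    (4 * s0) / (3 * (n - 1) ^ 2) + 1⟩ else ⟨s0, 0⟩

/-- Concatenation of two blocks. -/
def comb (a b : GK) : GK := ⟨a.G * b.G / s0 + 1, a.K + a.G * b.K / s0 + 1⟩

/-- The block `[n, n + 2 ^ d)`. -/
def tree : ℕ → ℕ → GK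
  | 0, n => leaf n
  | (d + 1), n => comb (tree d n) (tree d (n + 2 ^ d))

lemma PB_dvd : PB ∣ Nat.factorial 256 := by decide +kernel

lemma cand_of_prime {n : ℕ} (hn : n.Prime) (h : 200 ≤ n) : cand n = true := by
  unfold cand
  split_ifs with h1
  · have : Nat.Coprime n 30030 := by
      rw [hn.coprime_iff_not_dvd]
      intro hd
      have h2 : (30030 : ℕ) = 2 * 3 * 5 * 7 * 11 * 13 := by norm_num
      rw [h2] at hd
      simp only [hn.dvd_mul] at hd
      rcases hd with ((((hd | hd) | hd) | hd) | hd) | hd <;>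
        · have := Nat.le_of_dvd (by norm_num) hd
          omega
    simpa using this
  · have hle : 256 < n := by
      by_contra hcon
      exact h1 (by rw [Nat.ble_eq]; omega)
    have : Nat.Coprime n PB := by
      rw [hn.coprime_iff_not_dvd]
      intro hd
      have := (hn.dvd_factorial).1 (hd.trans PB_dvd)
      omega
    simpa using this

/-- second moment at `n` -/
noncomputable def fs (e n : ℕ) : ℚ := m2 e (n - 7)

lemma fs_nonneg (e n : ℕ) : 0 ≤ fs e n := m2_nonneg e _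

lemma fs_succ_prime {e n : ℕ} (h7 : 7 ≤ n) (hn : n.Prime) :
    fs e (n + 1) ≤ fs e n * (1 + 4 / 3 * ((3 * (n : ℚ) - 1) / ((n : ℚ) - 1) ^ 2)) := by
  obtain ⟨k, rfl⟩ := Nat.exists_eq_add_of_le' h7
  unfold fs
  have e1 : k + 7 + 1 - 7 = k + 1 := by omega
  have e2 : k + 7 - 7 = k := by omega
  rw [e1, e2]
  exact m2_succ_prime hn

lemma fs_succ_not {e n : ℕ} (h7 : 7 ≤ n) (hn : ¬ n.Prime) : fs e (n + 1) = fs e n := by
  obtain ⟨k, rfl⟩ := Nat.exists_eq_add_of_le' h7
  unfold fs
  have e1 : k + 7 + 1 - 7 = k + 1 := by omega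
  have e2 : k + 7 - 7 = k := by omega
  rw [e1, e2]
  exact m2_succ_not hn

lemma cost_le_fs {e n : ℕ} (h7 : 7 ≤ n) :
    cost e n ≤ 4 / 3 * (1 / ((n : ℚ) - 1) ^ 2) * fs e n := cost_le_m2 e n h7

lemma s0_pos : (0 : ℚ) < s0 := by
  have : 0 < s0 := by unfold s0; positivity
  exact_mod_cast this

lemma tree_bound (e : ℕ) : ∀ (d n : ℕ), 200 ≤ n →
    fs e (n + 2 ^ d) ≤ fs e n * (((tree d n).G : ℚ) / s0) ∧
    Scost e n (n + 2 ^ d) ≤ fs e n * (((tree d n).K : ℚ) / s0) := by
  have hs0 := s0_pos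
  intro d
  induction d with
  | zero =>
    intro n hn
    have hnq : (200 : ℚ) ≤ n := by exact_mod_cast hn
    have hf := fs_nonneg e n
    simp only [pow_zero, tree, leaf]
    by_cases hp : n.Prime
    · rw [if_pos (cand_of_prime hp hn)]
      have hne : (n : ℚ) - 1 ≠ 0 := by linarith
      constructor
      · refine (fs_succ_prime (by omega) hp).trans ?_
        apply mul_le_mul_of_nonneg_left _ hf
        rw [le_div_iff₀ hs0]
        have h1 := div_le_natDiv (s0 * (4 * (3 * n - 1))) (3 * (n - 1) ^ 2)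
          (by have : 0 < n - 1 := by omega
              positivity)
        push_cast [Nat.cast_sub (show 1 ≤ 3 * n by omega), Nat.cast_sub (show 1 ≤ n by omega)] at h1 ⊢
        refine le_trans (le_of_eq ?_) (add_le_add_right h1 (s0 : ℚ)) |>.trans (le_of_eq ?_)
        · field_simp
        · ring
      · have h2 : Scost e n (n + 1) = cost e n := by
          rw [Scost_succ_prime le_rfl hp]
          unfold Scost
          simp
        rw [h2]
        refine (cost_le_fs (by omega)).trans ?_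
        rw [mul_comm]
        apply mul_le_mul_of_nonneg_left _ hf
        rw [le_div_iff₀ hs0]
        have h1 := div_le_natDiv (4 * s0) (3 * (n - 1) ^ 2)
          (by have : 0 < n - 1 := by omega
              positivity)
        push_cast [Nat.cast_sub (show 1 ≤ n by omega)] at h1 ⊢
        refine le_trans (le_of_eq ?_) h1
        field_simp
    · have h2 : Scost e n (n + 1) = 0 := by
        rw [Scost_succ_not le_rfl hp]
        unfold Scost
        simp
      rw [h2, fs_succ_not (by omega) hp]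
      constructor
      · have h3 : (1 : ℚ) ≤ ((if cand n = true then (⟨s0 + s0 * (4 * (3 * n - 1)) / (3 * (n - 1) ^ 2) + 1,
            (4 * s0) / (3 * (n - 1) ^ 2) + 1⟩ : GK) else ⟨s0, 0⟩).G : ℚ) / s0 := by
          rw [le_div_iff₀ hs0, one_mul]
          split_ifs
          · push_cast
            have : (0 : ℚ) ≤ ((s0 * (4 * (3 * n - 1)) / (3 * (n - 1) ^ 2) : ℕ) : ℚ) := by positivity
            linarith
          · exact le_rfl
        calc fs e n = fs e n * 1 := (mul_one _).symm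
          _ ≤ _ := mul_le_mul_of_nonneg_left h3 hf
      · exact mul_nonneg hf (div_nonneg (by positivity) hs0.le)
  | succ d ih =>
    intro n hn
    obtain ⟨a1, a2⟩ := ih n hn
    obtain ⟨b1, b2⟩ := ih (n + 2 ^ d) (le_trans hn (Nat.le_add_right _ _))
    have e1 : n + 2 ^ (d + 1) = n + 2 ^ d + 2 ^ d := by ring
    rw [e1]
    simp only [tree]
    generalize tree d n = A at *
    generalize tree d (n + 2 ^ d) = B at *
    have hf := fs_nonneg e n
    have hG : (0 : ℚ) ≤ (B.G : ℚ) / s0 := div_nonneg (by positivity) hs0.le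
    have hK : (0 : ℚ) ≤ (B.K : ℚ) / s0 := div_nonneg (by positivity) hs0.le
    unfold comb
    simp only
    constructor
    · have h1 := div_le_natDiv (A.G * B.G) s0 (by exact_mod_cast hs0)
      calc fs e (n + 2 ^ d + 2 ^ d) ≤ fs e (n + 2 ^ d) * ((B.G : ℚ) / s0) := b1
        _ ≤ (fs e n * ((A.G : ℚ) / s0)) * ((B.G : ℚ) / s0) := mul_le_mul_of_nonneg_right a1 hG
        _ = fs e n * ((((A.G * B.G : ℕ) : ℚ) / s0) / s0) := by
            push_cast
            field_simp
        _ ≤ fs e n * (((A.G * B.G / s0 + 1 : ℕ) : ℚ) / s0) := by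
            apply mul_le_mul_of_nonneg_left _ hf
            exact div_le_div_of_nonneg_right h1 hs0.le
    · rw [Scost_add (b := n + 2 ^ d) (Nat.le_add_right _ _) (Nat.le_add_right _ _)]
      have h1 := div_le_natDiv (A.G * B.K) s0 (by exact_mod_cast hs0)
      calc Scost e n (n + 2 ^ d) + Scost e (n + 2 ^ d) (n + 2 ^ d + 2 ^ d)
          ≤ fs e n * ((A.K : ℚ) / s0) + fs e (n + 2 ^ d) * ((B.K : ℚ) / s0) := add_le_add a2 b2
        _ ≤ fs e n * ((A.K : ℚ) / s0) + (fs e n * ((A.G : ℚ) / s0)) * ((B.K : ℚ) / s0) :=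
            add_le_add le_rfl (mul_le_mul_of_nonneg_right a1 hK)
        _ = fs e n * (((A.K : ℚ) + ((A.G * B.K : ℕ) : ℚ) / s0) / s0) := by
            push_cast
            field_simp
        _ ≤ fs e n * (((A.K + A.G * B.K / s0 + 1 : ℕ) : ℚ) / s0) := by
            apply mul_le_mul_of_nonneg_left _ hf
            apply div_le_div_of_nonneg_right _ hs0.le
            push_cast at h1 ⊢
            linarith

/-! ### Tail -/

lemma one_add_pow_mul_le {g : ℚ} (hg0 : 0 ≤ g) (hg1 : g ≤ 1) (n : ℕ) :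
    (1 + g) ^ n * (1 - n * g) ≤ 1 := by
  have h1 : 1 + (n : ℚ) * (-g) ≤ (1 + -g) ^ n := one_add_mul_le_pow (by linarith) n
  have h2 : (0 : ℚ) ≤ (1 + g) ^ n := by positivity
  calc (1 + g) ^ n * (1 - n * g) ≤ (1 + g) ^ n * (1 + -g) ^ n := by
        apply mul_le_mul_of_nonneg_left _ h2
        linarith
    _ = ((1 + g) * (1 + -g)) ^ n := by rw [mul_pow]
    _ ≤ 1 := by
        apply pow_le_one₀
        · apply mul_nonneg <;> linarith
        · nlinarith

/-- primes in `[N, N + i)` -/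
noncomputable def cntP (N i : ℕ) : ℕ := ((Ico N (N + i)).filter Nat.Prime).card

lemma cntP_succ_prime {N i : ℕ} (h : (N + i).Prime) : cntP N (i + 1) = cntP N i + 1 := by
  unfold cntP
  rw [← add_assoc, show N + i + 1 = (N + i).succ from rfl,
    Nat.Ico_succ_right_eq_insert_Ico (by omega), filter_insert, if_pos h,
    card_insert_of_notMem (by simp)]

lemma cntP_succ_not {N i : ℕ} (h : ¬ (N + i).Prime) : cntP N (i + 1) = cntP N i := by
  unfold cntP
  rw [← add_assoc, show N + i + 1 = (N + i).succ from rfl,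
    Nat.Ico_succ_right_eq_insert_Ico (by omega), filter_insert, if_neg h]

lemma totient_2310 : Nat.totient 2310 = 480 := by decide +kernel

lemma cntP_le {N : ℕ} (hN : 12 ≤ N) : cntP N 2310 ≤ 480 := by
  rw [← totient_2310, ← Nat.filter_coprime_Ico_eq_totient 2310 N]
  unfold cntP
  apply card_le_card
  intro p hp
  rw [mem_filter] at hp ⊢
  refine ⟨hp.1, ?_⟩
  have hpN : N ≤ p := (mem_Ico.1 hp.1).1
  rw [Nat.coprime_comm, hp.2.coprime_iff_not_dvd]
  intro hd
  have h2 : (2310 : ℕ) = 2 * 3 * 5 * 7 * 11 := by norm_num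
  rw [h2] at hd
  simp only [hp.2.dvd_mul] at hd
  rcases hd with (((hd | hd) | hd) | hd) | hd <;>
    · have := Nat.le_of_dvd (by norm_num) hd
      omega

/-- growth rate at `N` -/
def gr (N : ℕ) : ℚ := 4 / 3 * ((3 * (N : ℚ) - 1) / ((N : ℚ) - 1) ^ 2)

lemma gr_nonneg {N : ℕ} (hN : 7 ≤ N) : 0 ≤ gr N := by
  have : (7 : ℚ) ≤ N := by exact_mod_cast hN
  unfold gr
  apply mul_nonneg (by norm_num)
  apply div_nonneg _ (by positivity)
  linarith

lemma gr_le_one {N : ℕ} (hN : 7 ≤ N) : gr N ≤ 1 := by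
  have h7 : (7 : ℚ) ≤ N := by exact_mod_cast hN
  have hpos : (0 : ℚ) < ((N : ℚ) - 1) ^ 2 := by
    have : (0 : ℚ) < (N : ℚ) - 1 := by linarith
    positivity
  unfold gr
  have h1 : (3 * (N : ℚ) - 1) / ((N : ℚ) - 1) ^ 2 ≤ 3 / 4 := by
    rw [div_le_iff₀ hpos]
    nlinarith
  linarith

lemma gr_anti {N M : ℕ} (hN : 7 ≤ N) (h : N ≤ M) : gr M ≤ gr N := by
  have h1 : (7 : ℚ) ≤ N := by exact_mod_cast hN
  have h2 : (N : ℚ) ≤ M := by exact_mod_cast h
  unfold gr
  apply mul_le_mul_of_nonneg_left _ (by norm_num)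
  rw [div_le_div_iff₀ (by nlinarith) (by nlinarith)]
  -- (3M-1)(N-1)^2 ≤ (3N-1)(M-1)^2
  have h3 : 0 ≤ (M : ℚ) - N := by linarith
  have h4 : 0 ≤ (N : ℚ) - 1 := by linarith
  have : (3 * (N : ℚ) - 1) * ((M : ℚ) - 1) ^ 2 - (3 * (M : ℚ) - 1) * ((N : ℚ) - 1) ^ 2
      = (M - N) * (3 * (N - 1) * (M - N) + 3 * (N - 1) ^ 2 + 4 * (N - 1) + 2 * (M - N)) := by ring
  have h5 : 0 ≤ ((M : ℚ) - N) * (3 * (N - 1) * (M - N) + 3 * (N - 1) ^ 2 + 4 * (N - 1) + 2 * (M - N)) := by
    positivity
  linarith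

lemma fs_block {e N : ℕ} (hN : 7 ≤ N) : ∀ i, fs e (N + i) ≤ fs e N * (1 + gr N) ^ cntP N i := by
  intro i
  have hf := fs_nonneg e N
  have hg := gr_nonneg hN
  induction i with
  | zero => simp [cntP]
  | succ i ih =>
    by_cases hp : (N + i).Prime
    · rw [cntP_succ_prime hp, ← add_assoc]
      refine (fs_succ_prime (by omega) hp).trans ?_
      have h1 : (1 + 4 / 3 * ((3 * ((N + i : ℕ) : ℚ) - 1) / (((N + i : ℕ) : ℚ) - 1) ^ 2)) ≤ 1 + gr N := by
        have := gr_anti (M := N + i) hN (by omega)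
        unfold gr at this ⊢
        linarith
      calc fs e (N + i) * (1 + 4 / 3 * ((3 * ((N + i : ℕ) : ℚ) - 1) / (((N + i : ℕ) : ℚ) - 1) ^ 2))
          ≤ fs e (N + i) * (1 + gr N) := mul_le_mul_of_nonneg_left h1 (fs_nonneg _ _)
        _ ≤ (fs e N * (1 + gr N) ^ cntP N i) * (1 + gr N) :=
            mul_le_mul_of_nonneg_right ih (by linarith)
        _ = _ := by ring
    · rw [cntP_succ_not hp, ← add_assoc, fs_succ_not (by omega) hp]
      exact ih

lemma cntP_mono {N i j : ℕ} (h : i ≤ j) : cntP N i ≤ cntP N j := by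
  unfold cntP
  apply card_le_card
  apply filter_subset_filter
  exact Ico_subset_Ico le_rfl (by omega)

/-- One block of length 2310. -/
lemma block {e N : ℕ} (hN : 65736 ≤ N) :
    fs e (N + 2310) * ((21 / 10 : ℚ) / ((N : ℚ) + 2310)) + Scost e N (N + 2310)
      ≤ fs e N * ((21 / 10 : ℚ) / N) := by
  have hNq : (65736 : ℚ) ≤ N := by exact_mod_cast hN
  have hf := fs_nonneg e N
  have hg := gr_nonneg (N := N) (by omega)
  obtain ⟨W, hW⟩ : ∃ W : ℚ, W = (1 + gr N) ^ 480 := ⟨_, rfl⟩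
  have hWpos : 0 ≤ W := by rw [hW]; positivity
  have hpow : ∀ i, i ≤ 2310 → (1 + gr N) ^ cntP N i ≤ W := by
    intro i hi
    rw [hW]
    apply pow_le_pow_right₀ (by linarith)
    exact (cntP_mono hi).trans (cntP_le (by omega))
  have hfs : ∀ i, i ≤ 2310 → fs e (N + i) ≤ fs e N * W := fun i hi =>
    (fs_block (by omega) i).trans (mul_le_mul_of_nonneg_left (hpow i hi) hf)
  have hcost : Scost e N (N + 2310) ≤ 480 * (4 / 3 * (1 / ((N : ℚ) - 1) ^ 2) * (fs e N * W)) := by
    unfold Scost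
    have h1 : ∀ n ∈ (Ico N (N + 2310)).filter Nat.Prime,
        cost e n ≤ 4 / 3 * (1 / ((N : ℚ) - 1) ^ 2) * (fs e N * W) := by
      intro n hn
      rw [mem_filter, mem_Ico] at hn
      obtain ⟨i, rfl⟩ := Nat.exists_eq_add_of_le hn.1.1
      refine (cost_le_fs (by omega)).trans ?_
      have h2 : 1 / (((N + i : ℕ) : ℚ) - 1) ^ 2 ≤ 1 / ((N : ℚ) - 1) ^ 2 := by
        apply one_div_le_one_div_of_le
        · have : (0 : ℚ) < (N : ℚ) - 1 := by linarith
          positivity
        · apply pow_le_pow_left₀ (by linarith)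
          push_cast
          have : (0 : ℚ) ≤ (i : ℚ) := by positivity
          linarith
      have h3 := hfs i (by omega)
      have h4 : (0 : ℚ) ≤ 4 / 3 * (1 / ((N : ℚ) - 1) ^ 2) := by positivity
      calc 4 / 3 * (1 / (((N + i : ℕ) : ℚ) - 1) ^ 2) * fs e (N + i)
          ≤ 4 / 3 * (1 / ((N : ℚ) - 1) ^ 2) * fs e (N + i) := by
            apply mul_le_mul_of_nonneg_right _ (fs_nonneg _ _)
            linarith
        _ ≤ _ := mul_le_mul_of_nonneg_left h3 h4
    refine (sum_le_sum h1).trans ?_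
    rw [sum_const, nsmul_eq_mul]
    apply mul_le_mul_of_nonneg_right
    · have := cntP_le (N := N) (by omega)
      unfold cntP at this
      exact_mod_cast this
    · have := mul_nonneg hf hWpos
      positivity
  have hWle : W * (1 - 480 * gr N) ≤ 1 := by
    rw [hW]
    have := one_add_pow_mul_le hg (gr_le_one (by omega)) 480
    simpa using this
  have key : (21 / 10 : ℚ) / ((N : ℚ) + 2310) + 480 * (4 / 3 * (1 / ((N : ℚ) - 1) ^ 2))
      ≤ (21 / 10 : ℚ) / N * (1 - 480 * gr N) := by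
    have h1 : (N : ℚ) - 1 ≠ 0 := by linarith
    have h2 : (N : ℚ) ≠ 0 := by linarith
    have h3 : (N : ℚ) + 2310 ≠ 0 := by linarith
    rw [← sub_nonneg]
    have : (21 / 10 : ℚ) / N * (1 - 480 * gr N)
        - ((21 / 10 : ℚ) / ((N : ℚ) + 2310) + 480 * (4 / 3 * (1 / ((N : ℚ) - 1) ^ 2)))
        = (21 * ((N : ℚ) - 1) ^ 2 * (N + 2310) - 21 * 640 * (3 * N - 1) * (N + 2310)
            - 21 * ((N : ℚ) - 1) ^ 2 * N - 6400 * N * (N + 2310))
          / (10 * N * (N + 2310) * ((N : ℚ) - 1) ^ 2) := by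
      unfold gr
      field_simp
      ring
    rw [this]
    apply div_nonneg
    · obtain ⟨t, ht⟩ : ∃ t : ℚ, t = (N : ℚ) - 65736 := ⟨_, rfl⟩
      have ht0 : 0 ≤ t := by linarith
      have hN' : (N : ℚ) = 65736 + t := by linarith
      rw [hN']
      have : 21 * ((65736 + t : ℚ) - 1) ^ 2 * (65736 + t + 2310)
          - 21 * 640 * (3 * (65736 + t) - 1) * (65736 + t + 2310)
          - 21 * ((65736 + t : ℚ) - 1) ^ 2 * (65736 + t) - 6400 * (65736 + t) * (65736 + t + 2310)
          = 1790 * t ^ 2 + 127328100 * t + 635084240670 := by ring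
      rw [this]
      positivity
    · have : (0 : ℚ) < N := by linarith
      positivity
  have hfin : ((21 / 10 : ℚ) / ((N : ℚ) + 2310) + 480 * (4 / 3 * (1 / ((N : ℚ) - 1) ^ 2))) * W
      ≤ (21 / 10 : ℚ) / N := by
    have h1 : (0 : ℚ) ≤ (21 / 10 : ℚ) / N := by
      apply div_nonneg <;> linarith
    calc _ ≤ ((21 / 10 : ℚ) / N * (1 - 480 * gr N)) * W := mul_le_mul_of_nonneg_right key hWpos
      _ = (21 / 10 : ℚ) / N * (W * (1 - 480 * gr N)) := by ring
      _ ≤ (21 / 10 : ℚ) / N * 1 := mul_le_mul_of_nonneg_left hWle h1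
      _ = _ := mul_one _
  have h5 := hfs 2310 le_rfl
  have h6 : (0 : ℚ) ≤ (21 / 10 : ℚ) / ((N : ℚ) + 2310) := by
    apply div_nonneg <;> linarith
  calc fs e (N + 2310) * ((21 / 10 : ℚ) / ((N : ℚ) + 2310)) + Scost e N (N + 2310)
      ≤ (fs e N * W) * ((21 / 10 : ℚ) / ((N : ℚ) + 2310))
        + 480 * (4 / 3 * (1 / ((N : ℚ) - 1) ^ 2) * (fs e N * W)) :=
        add_le_add (mul_le_mul_of_nonneg_right h5 h6) hcost
    _ = fs e N * (((21 / 10 : ℚ) / ((N : ℚ) + 2310)
          + 480 * (4 / 3 * (1 / ((N : ℚ) - 1) ^ 2))) * W) := by ring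
    _ ≤ _ := mul_le_mul_of_nonneg_left hfin hf

lemma tail (e : ℕ) : ∀ j : ℕ,
    fs e (65736 + 2310 * j) * ((21 / 10 : ℚ) / ((65736 + 2310 * j : ℕ) : ℚ))
      + Scost e 65736 (65736 + 2310 * j) ≤ fs e 65736 * ((21 / 10 : ℚ) / 65736) := by
  intro j
  induction j with
  | zero => simp [Scost]
  | succ j ih =>
    have hb := block (e := e) (N := 65736 + 2310 * j) (by omega)
    have e1 : 65736 + 2310 * (j + 1) = 65736 + 2310 * j + 2310 := by ring
    rw [e1, Scost_add (b := 65736 + 2310 * j) (by omega) (by omega)]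
    push_cast at hb ih ⊢
    linarith

end Pool.Agent.Helper53.Cover
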