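import Mathlib
import Pool.Agent.Helper53.Cover.Tail

/-!
# The numerical inequality and the covering theorem
-/

set_option autoImplicit false

namespace Pool.Agent.Helper53.Cover

open Finset Function

set_option maxRecDepth 100000 in
lemma run_check : (Nat.ble (run 193).T (547 * 10 ^ 12) && Nat.ble (run 193).F (1483 * 10 ^ 14)) = true := by
  decide +kernel

set_option maxRecDepth 100000 in
lemma tree_check : (Nat.ble (tree 16 200).G (1774 * 10 ^ 16) && Nat.ble (tree 16 200).K (2019 * 10 ^ 12))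
    = true := by
  decide +kernel

theorem total_lt_one {e : ℕ} (he : 50 ≤ e) (N : ℕ) :
    ∑ n ∈ (range N).filter (fun n => n.Prime ∧ 7 ≤ n), cost e n < 1 := by
  have h0 : ∑ n ∈ (range N).filter (fun n => n.Prime ∧ 7 ≤ n), cost e n = Scost e 7 N := by
    unfold Scost
    apply sum_congr _ (fun _ _ => rfl)
    ext n
    simp only [mem_filter, mem_range, mem_Ico]
    tauto
  rw [h0]
  have h1 : Scost e 7 N ≤ Scost e 7 (65736 + 2310 * N) := Scost_mono le_rfl (by omega)
  have h2 : Scost e 7 (65736 + 2310 * N) = Scost e 7 200 + Scost e 200 65736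
      + Scost e 65736 (65736 + 2310 * N) := by
    rw [Scost_add (a := 7) (b := 65736) (by omega) (by omega),
      Scost_add (a := 7) (b := 200) (c := 65736) (by omega) (by omega)]
  have hinv := inv_all (e := e) he 193 le_rfl
  have hr := run_check
  rw [Bool.and_eq_true, Nat.ble_eq, Nat.ble_eq] at hr
  have ht := tree_check
  rw [Bool.and_eq_true, Nat.ble_eq, Nat.ble_eq] at ht
  have hT : (sc : ℚ) * Scost e 7 200 ≤ 547 * 10 ^ 12 := by
    refine hinv.hT.trans ?_
    exact_mod_cast hr.1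
  have hF : (sc : ℚ) * fs e 200 ≤ 1483 * 10 ^ 14 := by
    refine hinv.hF.trans ?_
    exact_mod_cast hr.2
  have hscv : (sc : ℚ) = 10 ^ 15 := by
    unfold sc
    push_cast
    norm_num
  have hs0v : (s0 : ℚ) = 10 ^ 18 := by
    unfold s0
    push_cast
    norm_num
  rw [hscv] at hT hF
  obtain ⟨t1, t2⟩ := tree_bound e 16 200 le_rfl
  have hG : ((tree 16 200).G : ℚ) ≤ 1774 * 10 ^ 16 := by exact_mod_cast ht.1
  have hK : ((tree 16 200).K : ℚ) ≤ 2019 * 10 ^ 12 := by exact_mod_cast ht.2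
  have e16 : 200 + 2 ^ 16 = 65736 := by norm_num
  rw [e16, hs0v] at t1 t2
  generalize (tree 16 200).G = G at *
  generalize (tree 16 200).K = K at *
  have hf0 := fs_nonneg e 200
  have hfle : fs e 200 ≤ 1483 / 10 := by linarith
  have hT' : Scost e 7 200 ≤ 547 / 1000 := by linarith
  have hGd : (G : ℚ) / 10 ^ 18 ≤ 1774 / 100 := by
    rw [div_le_iff₀ (by norm_num)]
    linarith
  have hKd : (K : ℚ) / 10 ^ 18 ≤ 2019 / 1000000 := by
    rw [div_le_iff₀ (by norm_num)]
    linarith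
  have hG0 : (0 : ℚ) ≤ (G : ℚ) := Nat.cast_nonneg G
  have hK0 : (0 : ℚ) ≤ (K : ℚ) := Nat.cast_nonneg K
  have hp18 : (0 : ℚ) ≤ 10 ^ 18 := by norm_num
  have hG1 : (0 : ℚ) ≤ (G : ℚ) / 10 ^ 18 := div_nonneg hG0 hp18
  have hK1 : (0 : ℚ) ≤ (K : ℚ) / 10 ^ 18 := div_nonneg hK0 hp18
  have h148 : (0 : ℚ) ≤ 1483 / 10 := by norm_num
  have h3 : fs e 65736 ≤ 1483 / 10 * (1774 / 100) := by
    refine t1.trans ?_
    exact mul_le_mul hfle hGd hG1 h148
  have h4 : Scost e 200 65736 ≤ 1483 / 10 * (2019 / 1000000) := by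
    refine t2.trans ?_
    exact mul_le_mul hfle hKd hK1 h148
  have h5 := tail e N
  have h6 : 0 ≤ fs e (65736 + 2310 * N) * ((21 / 10 : ℚ) / ((65736 + 2310 * N : ℕ) : ℚ)) := by
    apply mul_nonneg (fs_nonneg _ _)
    positivity
  have h7 : fs e 65736 * ((21 / 10 : ℚ) / 65736) ≤ 1483 / 10 * (1774 / 100) * ((21 / 10 : ℚ) / 65736) :=
    mul_le_mul_of_nonneg_right h3 (by norm_num)
  rw [h2] at h1
  have h8 : (547 / 1000 : ℚ) + 1483 / 10 * (2019 / 1000000)
      + 1483 / 10 * (1774 / 100) * ((21 / 10 : ℚ) / 65736) < 1 := by norm_num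
  linarith

/-- **Theorem.** A finite covering of the integers by residue classes with distinct moduli `≥ 2`,
none even and none divisible by `9`, uses a modulus divisible by `15`. -/
theorem covering (S : Finset ℕ) (r : ℕ → ℤ)
    (h2 : ∀ m ∈ S, 2 ≤ m)
    (hodd : ∀ m ∈ S, ¬ (2 ∣ m))
    (h9 : ∀ m ∈ S, ¬ (9 ∣ m))
    (hcov : ∀ x : ℤ, ∃ m ∈ S, x ≡ r m [ZMOD (m : ℤ)]) :
    ∃ m ∈ S, 15 ∣ m := by
  by_contra hcon
  push Not at hcon
  -- a bound for all exponents
  obtain ⟨e, he, hS⟩ : ∃ e, 50 ≤ e ∧ ∀ m ∈ S, good e m := by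
    refine ⟨50 + S.sup id, by omega, fun m hm => ⟨?_, hodd m hm, h9 m hm, hcon m hm, fun p => ?_⟩⟩
    · have := h2 m hm
      omega
    · have h1 : m ≤ S.sup id := le_sup (f := id) hm
      have h3 : m.factorization p < m := Nat.factorization_lt p (by have := h2 m hm; omega)
      omega
  obtain ⟨N, hN⟩ : ∃ N, ∀ m ∈ S, m < N := by
    refine ⟨S.sup id + 1, fun m hm => ?_⟩
    have h1 : m ≤ S.sup id := le_sup (f := id) hm
    omega
  have hred := reduction (e := e) (by omega) r hS h2 hcov N hN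
  have htot := total_lt_one he N
  unfold cost at htot
  linarith

end Pool.Agent.Helper53.Cover
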